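import Mathlib

/-! Soundness of one leaf of the certificates (any number of rows). -/

set_option autoImplicit false

namespace Pool.Agent.Helper28.TT

open Matrix

variable {n : Type*} [Fintype n] [DecidableEq n]

/-- the trace of a product of two positive semidefinite matrices, one of them conjugated -/
theorem trace_conj_nonneg {m : Type*} [Fintype m] [DecidableEq m] (R : Matrix n n ℝ)
    (A : Matrix m m ℝ) (Y : Matrix m n ℝ) (hR : R.PosSemidef) (hA : A.PosSemidef) :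
    0 ≤ trace (R * (Yᵀ * A * Y)) := by
  have hS : (Yᵀ * A * Y).PosSemidef := by
    have := hA.conjTranspose_mul_mul_same Y
    simpa using this
  obtain ⟨m', v, hv⟩ := Matrix.posSemidef_iff_eq_sum_vecMulVec.mp hR
  rw [hv, Matrix.sum_mul, trace_sum]
  refine Finset.sum_nonneg fun i _ => ?_
  have h1 : trace (vecMulVec (v i) (star (v i)) * (Yᵀ * A * Y)) =
      star (v i) ⬝ᵥ ((Yᵀ * A * Y) *ᵥ v i) := by
    rw [trace_mul_comm, mul_vecMulVec, trace_vecMulVec, dotProduct_comm]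
  rw [h1]
  exact hS.dotProduct_mulVec_nonneg (v i)

/-- duality for the nuclear norm -/
theorem trace_le (Y P R : Matrix n n ℝ) (hPR : P * R = 1) (hRP : R * P = 1) (hP : Pᵀ = P)
    (hR : R.PosSemidef) : 2 * trace Y ≤ trace P + trace (R * (Y * Yᵀ)) := by
  have h0 := trace_conj_nonneg 1 R (Y - P) PosSemidef.one hR
  have h1 : (Y - P)ᵀ * R * (Y - P) = Yᵀ * R * Y - Yᵀ - Y + P := by
    rw [Matrix.transpose_sub, hP, Matrix.sub_mul, Matrix.sub_mul, Matrix.mul_sub, Matrix.mul_sub,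
      hPR]
    have e1 : Yᵀ * R * P = Yᵀ := by rw [Matrix.mul_assoc, hRP, Matrix.mul_one]
    rw [e1]
    simp only [Matrix.one_mul]
    abel
  rw [Matrix.one_mul, h1] at h0
  simp only [trace_add, trace_sub, trace_transpose] at h0
  have h2 : trace (Yᵀ * R * Y) = trace (R * (Y * Yᵀ)) := by
    rw [Matrix.mul_assoc, trace_mul_comm, Matrix.mul_assoc]
  rw [h2] at h0
  linarith

/-- **Soundness of a leaf.**  `Z` is the inverse of the form `Fᵀ F`. -/
theorem leaf_bound {ι : Type*} [Fintype ι] (F C M : Matrix n (Fin 3) ℝ)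
    (Z : Matrix (Fin 3) (Fin 3) ℝ) (P R : Matrix n n ℝ) (hZ : (Fᵀ * F) * Z = 1)
    (hPR : P * R = 1) (hP : Pᵀ = P) (hR : R.PosSemidef) (lam : ι → ℝ) (hlam : ∀ v, 0 ≤ lam v)
    (hsum : ∑ v, lam v = 1) (A : ι → Matrix (Fin 3) (Fin 3) ℝ) (X : ι → Matrix (Fin 3) n ℝ)
    (hF : Fᵀ * F = ∑ v, lam v • A v)
    (hA : ∀ v, (A v).PosSemidef) (hX : ∀ v, A v * X v = Mᵀ) (K : ℝ)
    (hK : ∀ v, trace (R * (C * A v * Cᵀ + C * Mᵀ + M * Cᵀ + M * X v)) ≤ K) :
    2 * (trace (Fᵀ * C) + trace ((F * Z)ᵀ * M)) ≤ trace P + K := by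
  have hRP : R * P = 1 := mul_eq_one_comm.mp hPR
  have hZA : Z * (Fᵀ * F) = 1 := mul_eq_one_comm.mp hZ
  have hZs : Zᵀ = Z := by
    have h1 : Zᵀ * (Fᵀ * F) = 1 := by
      have := congrArg transpose hZ
      simpa [Matrix.transpose_mul, Matrix.mul_assoc] using this
    calc Zᵀ = Zᵀ * ((Fᵀ * F) * Z) := by rw [hZ, Matrix.mul_one]
      _ = (Zᵀ * (Fᵀ * F)) * Z := by simp only [Matrix.mul_assoc]
      _ = Z := by rw [h1, Matrix.one_mul]
  set Y : Matrix n n ℝ := (C + M * Z) * Fᵀ with hY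
  have h1 : trace (Fᵀ * C) + trace ((F * Z)ᵀ * M) = trace Y := by
    rw [hY, Matrix.add_mul, trace_add, trace_mul_comm, Matrix.transpose_mul, hZs]
    congr 1
    rw [Matrix.mul_assoc, trace_mul_comm Z, trace_mul_comm (M * Z) Fᵀ, Matrix.mul_assoc]
  have h2 := trace_le Y P R hPR hRP hP hR
  have h3 : Y * Yᵀ = C * (Fᵀ * F) * Cᵀ + C * Mᵀ + M * Cᵀ + M * Z * Mᵀ := by
    have e1 : Yᵀ = F * (Cᵀ + Z * Mᵀ) := by
      rw [hY, Matrix.transpose_mul, Matrix.transpose_transpose, Matrix.transpose_add,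
        Matrix.transpose_mul, hZs]
    rw [e1, hY]
    have e2 : (C + M * Z) * Fᵀ * (F * (Cᵀ + Z * Mᵀ)) =
        (C + M * Z) * ((Fᵀ * F) * (Cᵀ + Z * Mᵀ)) := by
      simp only [Matrix.mul_assoc]
    rw [e2, Matrix.mul_add (Fᵀ * F), ← Matrix.mul_assoc (Fᵀ * F) Z, hZ, Matrix.one_mul,
      Matrix.add_mul, Matrix.mul_add, Matrix.mul_add]
    have e3 : M * Z * (Fᵀ * F * Cᵀ) = M * Cᵀ := by
      rw [Matrix.mul_assoc, ← Matrix.mul_assoc Z, hZA, Matrix.one_mul]
    rw [e3, ← Matrix.mul_assoc C (Fᵀ * F)]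
    abel
  -- convexity
  have h4 : ∀ v, 0 ≤ trace (R * (M * X v)) - 2 * trace (R * (M * Z * Mᵀ)) +
      trace (R * (M * Z * A v * Z * Mᵀ)) := by
    intro v
    have h5 := trace_conj_nonneg R (A v) (X v - Z * Mᵀ) hR (hA v)
    have hAs : (A v)ᵀ = A v := by
      have := (hA v).isHermitian
      simpa [Matrix.IsHermitian] using this
    have hXt : (X v)ᵀ * A v = M := by
      have := congrArg transpose (hX v)
      simpa [Matrix.transpose_mul, hAs] using this
    have h6 : (X v - Z * Mᵀ)ᵀ * A v * (X v - Z * Mᵀ) =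
        M * X v - M * Z * Mᵀ - M * Z * Mᵀ + M * Z * A v * Z * Mᵀ := by
      rw [Matrix.transpose_sub, Matrix.transpose_mul, hZs, Matrix.transpose_transpose,
        Matrix.sub_mul, hXt, Matrix.sub_mul, Matrix.mul_sub, Matrix.mul_sub]
      have e1 : M * Z * A v * X v = M * Z * Mᵀ := by rw [Matrix.mul_assoc, hX v]
      rw [e1]
      simp only [Matrix.mul_assoc]
      abel
    rw [h6] at h5
    simp only [Matrix.mul_add, Matrix.mul_sub, trace_add, trace_sub] at h5
    linarith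
  have h7 : ∑ v, lam v * trace (R * (M * Z * A v * Z * Mᵀ)) = trace (R * (M * Z * Mᵀ)) := by
    have e1 : ∑ v, lam v * trace (R * (M * Z * A v * Z * Mᵀ)) =
        trace (R * (M * Z * (∑ v, lam v • A v) * Z * Mᵀ)) := by
      rw [Matrix.mul_sum, Matrix.sum_mul, Matrix.sum_mul, Matrix.mul_sum, trace_sum]
      refine Finset.sum_congr rfl fun v _ => ?_
      rw [Matrix.mul_smul, Matrix.smul_mul, Matrix.smul_mul, Matrix.mul_smul, trace_smul,
        smul_eq_mul]
    rw [e1, ← hF]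
    congr 2
    rw [Matrix.mul_assoc M, hZA, Matrix.mul_one]
  have h8 : ∑ v, lam v * trace (R * (C * A v * Cᵀ)) = trace (R * (C * (Fᵀ * F) * Cᵀ)) := by
    rw [hF, Matrix.mul_sum, Matrix.sum_mul, Matrix.mul_sum, trace_sum]
    refine Finset.sum_congr rfl fun v _ => ?_
    rw [Matrix.mul_smul, Matrix.smul_mul, Matrix.mul_smul, trace_smul, smul_eq_mul]
  have h9 : trace (R * (Y * Yᵀ)) ≤ K := by
    have h10 : ∑ v, lam v * trace (R * (C * A v * Cᵀ + C * Mᵀ + M * Cᵀ + M * X v)) ≤ K := by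
      calc ∑ v, lam v * trace (R * (C * A v * Cᵀ + C * Mᵀ + M * Cᵀ + M * X v))
          ≤ ∑ v, lam v * K := Finset.sum_le_sum fun v _ =>
            mul_le_mul_of_nonneg_left (hK v) (hlam v)
        _ = K := by rw [← Finset.sum_mul, hsum, one_mul]
    have h11 : ∑ v, lam v * (trace (R * (M * X v)) - 2 * trace (R * (M * Z * Mᵀ)) +
        trace (R * (M * Z * A v * Z * Mᵀ))) ≥ 0 :=
      Finset.sum_nonneg fun v _ => mul_nonneg (hlam v) (h4 v)
    have h12 : ∑ v, lam v * (trace (R * (M * X v)) - 2 * trace (R * (M * Z * Mᵀ)) +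
        trace (R * (M * Z * A v * Z * Mᵀ))) =
        ∑ v, lam v * trace (R * (M * X v)) - trace (R * (M * Z * Mᵀ)) := by
      have e : ∀ v, lam v * (trace (R * (M * X v)) - 2 * trace (R * (M * Z * Mᵀ)) +
          trace (R * (M * Z * A v * Z * Mᵀ))) = lam v * trace (R * (M * X v)) -
          lam v * (2 * trace (R * (M * Z * Mᵀ))) +
          lam v * trace (R * (M * Z * A v * Z * Mᵀ)) := fun v => by ring
      rw [Finset.sum_congr rfl fun v _ => e v, Finset.sum_add_distrib, Finset.sum_sub_distrib, h7,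
        ← Finset.sum_mul, hsum]
      ring
    have h13 : ∑ v, lam v * trace (R * (C * A v * Cᵀ + C * Mᵀ + M * Cᵀ + M * X v)) =
        trace (R * (C * (Fᵀ * F) * Cᵀ)) + trace (R * (C * Mᵀ)) + trace (R * (M * Cᵀ)) +
        ∑ v, lam v * trace (R * (M * X v)) := by
      have e : ∀ v, lam v * trace (R * (C * A v * Cᵀ + C * Mᵀ + M * Cᵀ + M * X v)) =
          lam v * trace (R * (C * A v * Cᵀ)) + lam v * (trace (R * (C * Mᵀ)) +
          trace (R * (M * Cᵀ))) + lam v * trace (R * (M * X v)) := by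
        intro v
        simp only [Matrix.mul_add, trace_add]
        ring
      rw [Finset.sum_congr rfl fun v _ => e v, Finset.sum_add_distrib, Finset.sum_add_distrib, h8,
        ← Finset.sum_mul, hsum]
      ring
    rw [h3]
    simp only [Matrix.mul_add, trace_add]
    rw [h13] at h10
    rw [h12] at h11
    linarith
  rw [h1]
  linarith

end Pool.Agent.Helper28.TT
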