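/-! The machine which checks a tree given by tokens; no imports. -/

set_option autoImplicit false

namespace Pool.Agent.Helper28.TT

/-- symmetric matrix `[[a,d,e],[d,b,f],[e,f,c]]` -/
structure S3 where
  a : Int
  b : Int
  c : Int
  d : Int
  e : Int
  f : Int
  deriving DecidableEq

/-- square matrix, row after row -/
structure M3 where
  a0 : Int
  a1 : Int
  a2 : Int
  b0 : Int
  b1 : Int
  b2 : Int
  c0 : Int
  c1 : Int
  c2 : Int
  deriving DecidableEq

namespace S3

/-- the adjugate -/
def adj (s : S3) : S3 :=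
  ⟨s.b * s.c - s.f * s.f, s.a * s.c - s.e * s.e, s.a * s.b - s.d * s.d,
    s.e * s.f - s.c * s.d, s.d * s.f - s.b * s.e, s.d * s.e - s.a * s.f⟩

/-- the determinant -/
def det (s : S3) : Int :=
  s.a * (s.b * s.c - s.f * s.f) + s.d * (s.e * s.f - s.c * s.d) + s.e * (s.d * s.f - s.b * s.e)

/-- the scalar product -/
def pair (s t : S3) : Int :=
  s.a * t.a + s.b * t.b + s.c * t.c + 2 * (s.d * t.d + s.e * t.e + s.f * t.f)

/-- the trace -/
def tr (s : S3) : Int := s.a + s.b + s.c

end S3

namespace M3

/-- the product with a symmetric matrix on the left, `S * N` -/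
def smul (s : S3) (n : M3) : M3 :=
  ⟨s.a * n.a0 + s.d * n.b0 + s.e * n.c0, s.a * n.a1 + s.d * n.b1 + s.e * n.c1,
    s.a * n.a2 + s.d * n.b2 + s.e * n.c2,
    s.d * n.a0 + s.b * n.b0 + s.f * n.c0, s.d * n.a1 + s.b * n.b1 + s.f * n.c1,
    s.d * n.a2 + s.b * n.b2 + s.f * n.c2,
    s.e * n.a0 + s.f * n.b0 + s.c * n.c0, s.e * n.a1 + s.f * n.b1 + s.c * n.c1,
    s.e * n.a2 + s.f * n.b2 + s.c * n.c2⟩

/-- the entries of `Nᵀ * L` which are needed if it is symmetric -/
def tmul (n l : M3) : S3 :=
  ⟨n.a0 * l.a0 + n.b0 * l.b0 + n.c0 * l.c0, n.a1 * l.a1 + n.b1 * l.b1 + n.c1 * l.c1,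
    n.a2 * l.a2 + n.b2 * l.b2 + n.c2 * l.c2, n.a0 * l.a1 + n.b0 * l.b1 + n.c0 * l.c1,
    n.a0 * l.a2 + n.b0 * l.b2 + n.c0 * l.c2, n.a1 * l.a2 + n.b1 * l.b2 + n.c1 * l.c2⟩

/-- the scalar product -/
def pair (n l : M3) : Int :=
  n.a0 * l.a0 + n.a1 * l.a1 + n.a2 * l.a2 + n.b0 * l.b0 + n.b1 * l.b1 + n.b2 * l.b2 +
    n.c0 * l.c0 + n.c1 * l.c1 + n.c2 * l.c2

/-- `w * m + n` -/
def acc (w : Int) (m n : M3) : M3 :=
  ⟨w * m.a0 + n.a0, w * m.a1 + n.a1, w * m.a2 + n.a2, w * m.b0 + n.b0, w * m.b1 + n.b1,
    w * m.b2 + n.b2, w * m.c0 + n.c0, w * m.c1 + n.c1, w * m.c2 + n.c2⟩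

end M3

/-- the form with the Selling parameters `p01, p02, p03, p12, p13, p23` -/
def ofP (p01 p02 p03 p12 p13 p23 : Int) : S3 :=
  ⟨p01 + p02 + p03, p01 + p12 + p13, p02 + p12 + p23, -p01, -p02, -p12⟩

/-- the corner of a cell: the form, the (scaled) inverse and its scale -/
structure Corner where
  a : S3
  b : S3
  d : Int
  deriving DecidableEq

/-- a fact about the model: linear in `F`, linear in `F Z`, or a tag -/
inductive Item where
  | c (m : M3) (k : Int)
  | w (m : M3) (k : Int)
  | t (n : Nat)
  deriving DecidableEq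

/-- `wn / wd` is twice the width -/
def wn : Int := 1154
/-- `wn / wd` is twice the width -/
def wd : Int := 169

/-- Selling parameters `p01, p02, p03, p12, p13, p23` -/
structure P6 where
  q0 : Int
  q1 : Int
  q2 : Int
  q3 : Int
  q4 : Int
  q5 : Int
  deriving DecidableEq

/-- the form -/
def P6.form (p : P6) : S3 := ofP p.q0 p.q1 p.q2 p.q3 p.q4 p.q5

/-- a combination -/
def P6.comb (a : Int) (p : P6) (b : Int) (q : P6) : P6 :=
  ⟨a * p.q0 + b * q.q0, a * p.q1 + b * q.q1, a * p.q2 + b * q.q2, a * p.q3 + b * q.q3,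
    a * p.q4 + b * q.q4, a * p.q5 + b * q.q5⟩

/-- a corner with everything which is needed; `s` is the weight used for midpoints -/
structure Vx where
  p : P6
  s : Nat
  c : Corner
  sing : Bool
  deriving DecidableEq

/-- the corner of the parameters -/
def mkVx (p : P6) (s : Nat) : Vx :=
  match decide (0 < p.form.det) with
  | true => ⟨p, s, ⟨p.form, p.form.adj, p.form.det⟩, false⟩
  | false =>
    match decide (0 < p.form.adj.tr) with
    | true => ⟨p, s, ⟨p.form, ⟨p.form.tr - p.form.a, p.form.tr - p.form.b, p.form.tr - p.form.c,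
        -p.form.d, -p.form.e, -p.form.f⟩, p.form.adj.tr⟩, true⟩
    | false => ⟨p, s, ⟨p.form, ⟨1, 1, 1, 0, 0, 0⟩, p.form.tr⟩, true⟩

/-- the exact test at a singular corner: `A B Nᵀ = d Nᵀ`, for one row of `N` -/
def rowOK (c : Corner) (x y z : Int) : Bool :=
  decide (c.a.a * (c.b.a * x + c.b.d * y + c.b.e * z) + c.a.d * (c.b.d * x + c.b.b * y + c.b.f * z) +
    c.a.e * (c.b.e * x + c.b.f * y + c.b.c * z) = c.d * x) &&
  (decide (c.a.d * (c.b.a * x + c.b.d * y + c.b.e * z) + c.a.b * (c.b.d * x + c.b.b * y + c.b.f * z) +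
    c.a.f * (c.b.e * x + c.b.f * y + c.b.c * z) = c.d * y) &&
  decide (c.a.e * (c.b.a * x + c.b.d * y + c.b.e * z) + c.a.f * (c.b.d * x + c.b.b * y + c.b.f * z) +
    c.a.c * (c.b.e * x + c.b.f * y + c.b.c * z) = c.d * z))

/-- the exact test at a singular corner -/
def singOK (c : Corner) (n : M3) : Bool :=
  rowOK c n.a0 n.a1 n.a2 && (rowOK c n.b0 n.b1 n.b2 && rowOK c n.c0 n.c1 n.c2)

/-- a task: a cell and the facts which are known -/
structure Task where
  cs : List Vx
  env : List Item
  deriving DecidableEq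

/-- the test at the corners; `e = E²` -/
def cornersOK (M : M3) (U V : S3) (e : Int) : List Vx → Bool
  | [] => true
  | v :: l => decide (0 < v.c.d) && ((match v.sing with | true => singOK v.c M | false => true) &&
      (decide (4 * (S3.pair v.c.a U * S3.pair v.c.b V) ≤ e * v.c.d) && cornersOK M U V e l))

/-- the test with the number `E` -/
def leafE (cs : List Vx) (M : M3) (U V : S3) (e : Int) : Bool :=
  decide (0 < e) && cornersOK M U V (e * e) cs

/-- the test of a leaf -/
def leafT (cs : List Vx) (C M : M3) (k u : Int) (P : S3) (D : Int) : Bool :=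
  decide (0 < P.a) && (decide (0 < P.a * P.b - P.d * P.d) && (decide (0 < P.det) &&
  (decide (0 ≤ k) && (decide (0 ≤ u) && (decide (0 ≤ D) &&
  (decide (wd * (D * D) < 16 * wn * (k * u)) &&
  leafE cs M (M3.tmul C (M3.smul P.adj C)) (M3.tmul M (M3.smul P.adj M))
    (P.det * (D - P.tr) - 2 * M3.pair (M3.smul P.adj C) M)))))))

/-- combine the facts with the weights: for every fact one bit, and if it is one then 16 bits -/
def comb (cs : List Vx) (P : S3) (D : Int) : List Item → Nat → M3 → M3 → Int → Int → Bool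
  | _, 0, C, M, k, u => leafT cs C M k u P D
  | [], _ + 1, C, M, k, u => leafT cs C M k u P D
  | .t _ :: l, r + 1, C, M, k, u => comb cs P D l (r + 1) C M k u
  | .c m k' :: l, r + 1, C, M, k, u =>
    match (r + 1) % 2 with
    | 0 => comb cs P D l ((r + 1) / 2) C M k u
    | _ + 1 => comb cs P D l ((r + 1) / 131072) (M3.acc (Int.ofNat ((r + 1) / 2 % 65536)) m C) M
        (Int.ofNat ((r + 1) / 2 % 65536) * k' + k) u
  | .w m k' :: l, r + 1, C, M, k, u =>
    match (r + 1) % 2 with
    | 0 => comb cs P D l ((r + 1) / 2) C M k u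
    | _ + 1 => comb cs P D l ((r + 1) / 131072) C (M3.acc (Int.ofNat ((r + 1) / 2 % 65536)) m M) k
        (Int.ofNat ((r + 1) / 2 % 65536) * k' + u)

/-- a leaf: `P` with 20 bits each, `D` with 28 bits, then the weights -/
def leafN (t : Task) (r : Nat) : Bool :=
  comb t.cs
    ⟨Int.ofNat (r % 1048576), Int.ofNat (r / 1048576 % 1048576), Int.ofNat (r / 1048576 ^ 2 % 1048576),
      Int.ofNat (r / 1048576 ^ 3 % 1048576) - 524288, Int.ofNat (r / 1048576 ^ 4 % 1048576) - 524288,
      Int.ofNat (r / 1048576 ^ 5 % 1048576) - 524288⟩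
    (Int.ofNat (r / 1048576 ^ 6 % 268435456)) t.env (r / (1048576 ^ 6 * 268435456))
    ⟨0, 0, 0, 0, 0, 0, 0, 0, 0⟩ ⟨0, 0, 0, 0, 0, 0, 0, 0, 0⟩ 0 0

/-- entry of a list -/
def nth {α : Type} : List α → Nat → Option α
  | [], _ => none
  | a :: _, 0 => some a
  | _ :: l, n + 1 => nth l n

/-- change an entry of a list -/
def setn {α : Type} (x : α) : List α → Nat → List α
  | [], _ => []
  | _ :: l, 0 => x :: l
  | a :: l, n + 1 => a :: setn x l n

/-- the midpoint of two corners -/
def midVx (v w : Vx) : Vx :=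
  match Nat.gcd v.s w.s with
  | 0 => mkVx (P6.comb 1 v.p 1 w.p) (v.s + w.s)
  | g + 1 => mkVx (P6.comb (Int.ofNat (w.s / (g + 1))) v.p (Int.ofNat (v.s / (g + 1))) w.p)
      (2 * (v.s * (w.s / (g + 1))))

/-- split an edge -/
def splitT (t : Task) (i j : Nat) : Option (List Task) :=
  match decide (i = j), nth t.cs i, nth t.cs j with
  | false, some v, some w =>
    match decide (0 < v.s), decide (0 < w.s) with
    | true, true => some [⟨setn (midVx v w) t.cs i, t.env⟩, ⟨setn (midVx v w) t.cs j, t.env⟩]
    | _, _ => none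
  | _, _, _ => none

/-- the rule: from the facts and an index the list of the alternatives -/
abbrev Rule := List Item → Nat → Option (List (List Item))

/-- the children of a branching -/
def kids (cs : List Vx) (env : List Item) : List (List Item) → List Task
  | [] => []
  | a :: l => ⟨cs, a ++ env⟩ :: kids cs env l

/-- one step -/
def step (rule : Rule) (known : List Task) (t : Task) (tok : Nat) : Option (List Task) :=
  match tok % 4 with
  | 0 => match leafN t (tok / 4) with
    | true => some []
    | false => none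
  | 1 => splitT t (tok / 4 % 8) (tok / 32 % 8)
  | 2 => match rule t.env (tok / 4) with
    | none => none
    | some a => some (kids t.cs t.env a)
  | _ => match nth known (tok / 4) with
    | none => none
    | some u => match decide (u = t) with
      | true => some []
      | false => none

/-- the machine -/
def run (rule : Rule) (known : List Task) : List Nat → List Task → Bool
  | [], [] => true
  | [], _ :: _ => false
  | _ :: _, [] => false
  | tok :: l, t :: st =>
    match step rule known t tok with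
    | none => false
    | some n => run rule known l (n ++ st)

/-- the task at the end of a path: pairs of a token and the number of the child -/
def follow (rule : Rule) : List (Nat × Nat) → Task → Option Task
  | [], t => some t
  | (tok, k) :: l, t =>
    match step rule [] t tok with
    | none => none
    | some n => match nth n k with
      | none => none
      | some u => follow rule l u

/-- check the subtree at the end of a path -/
def runAt (rule : Rule) (path : List (Nat × Nat)) (toks : List Nat) (t : Task) : Bool :=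
  match follow rule path t with
  | none => false
  | some u => run rule [] toks [u]

end Pool.Agent.Helper28.TT
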