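import Mathlib
import Pool.Agent.Helper28.TT.Leaf

/-! Soundness of one leaf, every corner scaled in its own way. -/

set_option autoImplicit false

namespace Pool.Agent.Helper28.TT

open Matrix

/-- the choice of the scale at one corner -/
theorem exists_scale (α β δ : ℝ) (hα : 0 ≤ α) (hβ : 0 ≤ β) (hδ : 0 < δ)
    (h : 4 * (α * β) ≤ δ ^ 2) : ∃ a : ℝ, 0 < a ∧ a * α + β / a ≤ δ := by
  rcases hα.eq_or_lt with h0 | h0
  · refine ⟨β / δ + 1, by positivity, ?_⟩
    rw [← h0, mul_zero, zero_add, div_le_iff₀ (by positivity)]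
    have : δ * (β / δ + 1) = β + δ := by field_simp
    rw [this]
    linarith
  · refine ⟨δ / (2 * α), by positivity, ?_⟩
    have e1 : δ / (2 * α) * α = δ / 2 := by field_simp
    have e2 : β / (δ / (2 * α)) ≤ δ / 2 := by
      rw [div_le_iff₀ (by positivity)]
      have : δ / 2 * (δ / (2 * α)) = δ ^ 2 / (4 * α) := by ring
      rw [this, le_div_iff₀ (by positivity)]
      linarith
    rw [e1]
    linarith

variable {n : Type*} [Fintype n] [DecidableEq n]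

/-- **Soundness of a leaf**, scaled at every corner. -/
theorem leaf_false {ι : Type*} [Fintype ι] (F C M : Matrix n (Fin 3) ℝ)
    (Z : Matrix (Fin 3) (Fin 3) ℝ) (P R : Matrix n n ℝ) (hZ : (Fᵀ * F) * Z = 1)
    (hPR : P * R = 1) (hP : Pᵀ = P) (hR : R.PosSemidef) (lam : ι → ℝ) (hlam : ∀ v, 0 ≤ lam v)
    (A : ι → Matrix (Fin 3) (Fin 3) ℝ) (X : ι → Matrix (Fin 3) n ℝ)
    (hF : Fᵀ * F = ∑ v, lam v • A v)
    (hA : ∀ v, (A v).PosSemidef) (hX : ∀ v, A v * X v = Mᵀ)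
    (α β : ι → ℝ) (hα0 : ∀ v, 0 ≤ α v) (hβ0 : ∀ v, 0 ≤ β v)
    (hα : ∀ v, trace (R * (C * A v * Cᵀ)) ≤ α v) (hβ : ∀ v, trace (R * (M * X v)) ≤ β v)
    (T D κ μ : ℝ) (hT : trace P + trace (R * (C * Mᵀ + M * Cᵀ)) ≤ T) (hTD : T < D) (hD0 : 0 ≤ D)
    (hαβ : ∀ v, 4 * (α v * β v) ≤ (D - T) ^ 2)
    (hκ0 : 0 ≤ κ) (hμ0 : 0 ≤ μ) (hD : D ^ 2 < 16 * (κ * μ))
    (hκ : κ ≤ trace (Fᵀ * C)) (hμ : μ ≤ trace ((F * Z)ᵀ * M)) : False := by
  have hδ : 0 < D - T := by linarith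
  choose a ha0 ha using fun v => exists_scale (α v) (β v) (D - T) (hα0 v) (hβ0 v) hδ (hαβ v)
  obtain ⟨q, hq⟩ : ∃ q : ℝ, q = ∑ v, lam v / a v := ⟨_, rfl⟩
  have hq0 : 0 ≤ q := by
    rw [hq]
    exact Finset.sum_nonneg fun v _ => div_nonneg (hlam v) (ha0 v).le
  have hq1 : q ≠ 0 := by
    intro h0
    rw [hq, Finset.sum_eq_zero_iff_of_nonneg fun v _ => div_nonneg (hlam v) (ha0 v).le] at h0
    have h1 : Fᵀ * F = 0 := by
      rw [hF]
      refine Finset.sum_eq_zero fun v hv => ?_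
      have h2 := h0 v hv
      have h3 : lam v = 0 := by
        rcases div_eq_zero_iff.mp h2 with h | h
        · exact h
        · exact absurd h (ha0 v).ne'
      rw [h3, zero_smul]
    rw [h1, Matrix.zero_mul] at hZ
    have h2 := congrFun (congrFun hZ 0) 0
    simp at h2
  have hqp : 0 < q := lt_of_le_of_ne hq0 (Ne.symm hq1)
  obtain ⟨s, hs⟩ : ∃ s : ℝ, s = Real.sqrt q := ⟨_, rfl⟩
  have hs0 : 0 < s := by rw [hs]; exact Real.sqrt_pos.mpr hqp
  have hss : s * s = q := by rw [hs]; exact Real.mul_self_sqrt hq0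
  have hF1 : (s⁻¹ • F)ᵀ * (s⁻¹ • F) = ∑ v, (lam v / a v / q) • (a v • A v) := by
    rw [Matrix.transpose_smul, Matrix.smul_mul, Matrix.mul_smul, smul_smul, hF, Finset.smul_sum]
    refine Finset.sum_congr rfl fun v _ => ?_
    rw [smul_smul, smul_smul]
    congr 1
    rw [← hss]
    have := (ha0 v).ne'
    have := hs0.ne'
    field_simp
  have hZ1 : ((s⁻¹ • F)ᵀ * (s⁻¹ • F)) * (q • Z) = 1 := by
    simp only [Matrix.transpose_smul, Matrix.smul_mul, Matrix.mul_smul, smul_smul, hZ]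
    rw [← hss]
    convert one_smul ℝ (1 : Matrix (Fin 3) (Fin 3) ℝ) using 2
    have := hs0.ne'
    field_simp
  have key := leaf_bound (s⁻¹ • F) C M (q • Z) P R hZ1 hPR hP hR
    (fun v => lam v / a v / q) (fun v => div_nonneg (div_nonneg (hlam v) (ha0 v).le) hq0)
    (by rw [← Finset.sum_div, ← hq, div_self hq1])
    (fun v => a v • A v) (fun v => (a v)⁻¹ • X v) hF1
    (fun v => (hA v).smul (ha0 v).le)
    (fun v => by
      rw [Matrix.smul_mul, Matrix.mul_smul, smul_smul, mul_inv_cancel₀ (ha0 v).ne', one_smul, hX v])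
    (D - trace P) (fun v => by
      have e1 : trace (R * (C * (a v • A v) * Cᵀ + C * Mᵀ + M * Cᵀ + M * ((a v)⁻¹ • X v))) =
          a v * trace (R * (C * A v * Cᵀ)) + trace (R * (C * Mᵀ + M * Cᵀ)) +
          (a v)⁻¹ * trace (R * (M * X v)) := by
        simp only [Matrix.mul_smul, Matrix.smul_mul, Matrix.mul_add, trace_add, trace_smul,
          smul_eq_mul]
        ring
      rw [e1]
      have h1 := ha v
      have h2 : a v * trace (R * (C * A v * Cᵀ)) ≤ a v * α v :=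
        mul_le_mul_of_nonneg_left (hα v) (ha0 v).le
      have h3 : (a v)⁻¹ * trace (R * (M * X v)) ≤ β v / a v := by
        rw [div_eq_inv_mul]
        exact mul_le_mul_of_nonneg_left (hβ v) (inv_nonneg.mpr (ha0 v).le)
      linarith)
  have e2 : trace ((s⁻¹ • F)ᵀ * C) = s⁻¹ * trace (Fᵀ * C) := by
    rw [Matrix.transpose_smul, Matrix.smul_mul, trace_smul, smul_eq_mul]
  have e3 : trace ((s⁻¹ • F * (q • Z))ᵀ * M) = s * trace ((F * Z)ᵀ * M) := by
    rw [Matrix.smul_mul, Matrix.mul_smul, smul_smul, Matrix.transpose_smul, Matrix.smul_mul,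
      trace_smul, smul_eq_mul, ← hss]
    congr 1
    have := hs0.ne'
    field_simp
  rw [e2, e3] at key
  have h4 : s⁻¹ * κ ≤ s⁻¹ * trace (Fᵀ * C) := mul_le_mul_of_nonneg_left hκ (inv_nonneg.mpr hs0.le)
  have h5 : s * μ ≤ s * trace ((F * Z)ᵀ * M) := mul_le_mul_of_nonneg_left hμ hs0.le
  have h6 : 2 * (s⁻¹ * κ + s * μ) ≤ D := by linarith
  have h7 : 4 * (κ * μ) ≤ (s⁻¹ * κ + s * μ) ^ 2 := by
    have h8 : (s⁻¹ * κ) * (s * μ) = κ * μ := by
      have := hs0.ne'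
      field_simp
    nlinarith [sq_nonneg (s⁻¹ * κ - s * μ)]
  have h9 : 0 ≤ s⁻¹ * κ + s * μ := by positivity
  nlinarith

end Pool.Agent.Helper28.TT
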