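import Mathlib
import Pool.Agent.Helper28.TT.Leaf2
import Pool.Agent.Helper28.TT.Code

/-! The leaf lemma in integers. -/

set_option autoImplicit false

namespace Pool.Agent.Helper28.TT

open Matrix

namespace S3

/-- as a real matrix -/
def toM (s : S3) : Matrix (Fin 3) (Fin 3) ℝ :=
  !![(s.a : ℝ), (s.d : ℝ), (s.e : ℝ); (s.d : ℝ), (s.b : ℝ), (s.f : ℝ); (s.e : ℝ), (s.f : ℝ), (s.c : ℝ)]

theorem toM_transpose (s : S3) : (s.toM)ᵀ = s.toM := by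
  unfold toM
  ext i j
  fin_cases i <;> fin_cases j <;> rfl

theorem toM_mul_adj (s : S3) : s.toM * s.adj.toM = (s.det : ℝ) • (1 : Matrix (Fin 3) (Fin 3) ℝ) := by
  unfold toM adj det
  ext i j
  fin_cases i <;> fin_cases j <;>
    simp [Matrix.mul_apply, Fin.sum_univ_three] <;> ring

/-- positive definiteness from the three minors -/
theorem posSemidef (s : S3) (h1 : 0 < s.a) (h2 : 0 < s.a * s.b - s.d * s.d) (h3 : 0 < s.det) :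
    s.toM.PosSemidef := by
  have h1' : (0 : ℝ) < s.a := by exact_mod_cast h1
  have h2' : (0 : ℝ) < (s.a : ℝ) * s.b - (s.d : ℝ) * s.d := by exact_mod_cast h2
  have h3' : (0 : ℝ) < (s.a : ℝ) * ((s.b : ℝ) * s.c - (s.f : ℝ) * s.f) +
      (s.d : ℝ) * ((s.e : ℝ) * s.f - (s.c : ℝ) * s.d) +
      (s.e : ℝ) * ((s.d : ℝ) * s.f - (s.b : ℝ) * s.e) := by
    unfold det at h3
    exact_mod_cast h3
  refine Matrix.PosSemidef.of_dotProduct_mulVec_nonneg ?_ ?_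
  · have := s.toM_transpose
    simpa [Matrix.IsHermitian] using this
  · intro x
    have e : star x ⬝ᵥ s.toM *ᵥ x =
        (s.a : ℝ) * x 0 ^ 2 + (s.b : ℝ) * x 1 ^ 2 + (s.c : ℝ) * x 2 ^ 2 +
        2 * ((s.d : ℝ) * (x 0 * x 1) + (s.e : ℝ) * (x 0 * x 2) + (s.f : ℝ) * (x 1 * x 2)) := by
      unfold toM
      simp [dotProduct, Matrix.mulVec, Fin.sum_univ_three]
      ring
    rw [e]
    obtain ⟨m, hm⟩ : ∃ m : ℝ, m = (s.a : ℝ) * s.b - (s.d : ℝ) * s.d := ⟨_, rfl⟩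
    obtain ⟨D, hD⟩ : ∃ D : ℝ, D = (s.a : ℝ) * ((s.b : ℝ) * s.c - (s.f : ℝ) * s.f) +
      (s.d : ℝ) * ((s.e : ℝ) * s.f - (s.c : ℝ) * s.d) +
      (s.e : ℝ) * ((s.d : ℝ) * s.f - (s.b : ℝ) * s.e) := ⟨_, rfl⟩
    rw [← hm] at h2'
    rw [← hD] at h3'
    have key : (s.a : ℝ) * m * ((s.a : ℝ) * x 0 ^ 2 + (s.b : ℝ) * x 1 ^ 2 + (s.c : ℝ) * x 2 ^ 2 +
        2 * ((s.d : ℝ) * (x 0 * x 1) + (s.e : ℝ) * (x 0 * x 2) + (s.f : ℝ) * (x 1 * x 2))) =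
        m * ((s.a : ℝ) * x 0 + s.d * x 1 + s.e * x 2) ^ 2 +
        (m * x 1 + ((s.a : ℝ) * s.f - s.d * s.e) * x 2) ^ 2 + (s.a : ℝ) * D * x 2 ^ 2 := by
      rw [hm, hD]
      ring
    have hpos : 0 < (s.a : ℝ) * m := by positivity
    by_contra hcon
    push Not at hcon
    have h4 : (s.a : ℝ) * m * ((s.a : ℝ) * x 0 ^ 2 + (s.b : ℝ) * x 1 ^ 2 + (s.c : ℝ) * x 2 ^ 2 +
        2 * ((s.d : ℝ) * (x 0 * x 1) + (s.e : ℝ) * (x 0 * x 2) + (s.f : ℝ) * (x 1 * x 2))) < 0 :=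
      mul_neg_of_pos_of_neg hpos hcon
    rw [key] at h4
    have h5 : 0 ≤ m * ((s.a : ℝ) * x 0 + s.d * x 1 + s.e * x 2) ^ 2 +
        (m * x 1 + ((s.a : ℝ) * s.f - s.d * s.e) * x 2) ^ 2 + (s.a : ℝ) * D * x 2 ^ 2 := by
      positivity
    linarith

end S3

namespace M3

/-- as a real matrix -/
def toM (s : M3) : Matrix (Fin 3) (Fin 3) ℝ :=
  !![(s.a0 : ℝ), (s.a1 : ℝ), (s.a2 : ℝ); (s.b0 : ℝ), (s.b1 : ℝ), (s.b2 : ℝ);
    (s.c0 : ℝ), (s.c1 : ℝ), (s.c2 : ℝ)]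

end M3

theorem ofP_psd (p01 p02 p03 p12 p13 p23 : ℤ) (h1 : 0 ≤ p01) (h2 : 0 ≤ p02) (h3 : 0 ≤ p03)
    (h4 : 0 ≤ p12) (h5 : 0 ≤ p13) (h6 : 0 ≤ p23) :
    (ofP p01 p02 p03 p12 p13 p23).toM.PosSemidef := by
  have h1' : (0 : ℝ) ≤ p01 := by exact_mod_cast h1
  have h2' : (0 : ℝ) ≤ p02 := by exact_mod_cast h2
  have h3' : (0 : ℝ) ≤ p03 := by exact_mod_cast h3
  have h4' : (0 : ℝ) ≤ p12 := by exact_mod_cast h4
  have h5' : (0 : ℝ) ≤ p13 := by exact_mod_cast h5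
  have h6' : (0 : ℝ) ≤ p23 := by exact_mod_cast h6
  refine Matrix.PosSemidef.of_dotProduct_mulVec_nonneg ?_ ?_
  · have := (ofP p01 p02 p03 p12 p13 p23).toM_transpose
    simpa [Matrix.IsHermitian] using this
  · intro x
    have e : star x ⬝ᵥ (ofP p01 p02 p03 p12 p13 p23).toM *ᵥ x =
        (p01 : ℝ) * (x 0 - x 1) ^ 2 + (p02 : ℝ) * (x 0 - x 2) ^ 2 + (p03 : ℝ) * x 0 ^ 2 +
        (p12 : ℝ) * (x 1 - x 2) ^ 2 + (p13 : ℝ) * x 1 ^ 2 + (p23 : ℝ) * x 2 ^ 2 := by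
      unfold ofP S3.toM
      simp [dotProduct, Matrix.mulVec, Fin.sum_univ_three]
      ring
    rw [e]
    positivity

/-- the integer test of a leaf: `κ`, `μ` the right sides, `P` the metric, `D` the square root -/
def LeafOK {ι : Type*} (wn wd : ℤ) (A : ι → S3) (C M : M3) (κ μ : ℤ) (P : S3) (D : ℤ) : Prop :=
  0 < P.a ∧ 0 < P.a * P.b - P.d * P.d ∧ 0 < P.det ∧ 0 ≤ κ ∧ 0 ≤ μ ∧ 0 ≤ D ∧
  wd * (D * D) < 16 * wn * (κ * μ) ∧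
  0 < 2 * P.det * (D - P.tr) - M3.pair (M3.smul P.adj C) M ∧
  ∀ v, 0 < (A v).det ∧
    S3.pair (A v) (M3.tmul C (M3.smul P.adj C)) * S3.pair (A v).adj (M3.tmul M (M3.smul P.adj M)) ≤
      (2 * P.det * (D - P.tr) - M3.pair (M3.smul P.adj C) M) ^ 2 * (A v).det

end Pool.Agent.Helper28.TT
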