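import Mathlib
import Pool.Agent.Helper28.TT.LeafInt

/-! Soundness of the integer test of a leaf. -/

set_option autoImplicit false

namespace Pool.Agent.Helper28.TT

open Matrix

theorem pair_real (s t : S3) : (S3.pair s t : ℝ) = trace (s.toM * t.toM) := by
  unfold S3.pair S3.toM
  simp [Matrix.trace, Matrix.mul_apply, Fin.sum_univ_three]
  ring

theorem m3_smul (s : S3) (n : M3) : (M3.smul s n).toM = s.toM * n.toM := by
  unfold M3.smul M3.toM S3.toM
  ext i j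
  fin_cases i <;> fin_cases j <;> simp [Matrix.mul_apply, Fin.sum_univ_three]

theorem m3_tmul (s : S3) (n : M3) : (M3.tmul n (M3.smul s n)).toM = n.toMᵀ * s.toM * n.toM := by
  unfold M3.smul M3.tmul M3.toM S3.toM
  ext i j
  fin_cases i <;> fin_cases j <;>
    simp [Matrix.mul_apply, Fin.sum_univ_three, Matrix.transpose_apply] <;> ring

theorem m3_pair (n l : M3) : (M3.pair n l : ℝ) = trace (n.toM * l.toMᵀ) := by
  unfold M3.pair M3.toM
  simp only [Matrix.trace, Matrix.diag, Matrix.mul_apply, Fin.sum_univ_three, Matrix.transpose_apply]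
  simp
  ring

theorem tr_real (s : S3) : (s.tr : ℝ) = trace s.toM := by
  unfold S3.tr S3.toM
  simp [Matrix.trace, Fin.sum_univ_three]

/-- **Soundness of the integer test.**  `F` is the square matrix `½ H'ᵀ V`, the facts are
`κ ≤ ½ ⟨F, C⟩` and `(wn / wd) μ ≤ ½ ⟨F Z, M⟩`. -/
theorem leaf_int {ι : Type*} [Fintype ι] (F : Matrix (Fin 3) (Fin 3) ℝ)
    (Z : Matrix (Fin 3) (Fin 3) ℝ) (hZ : (Fᵀ * F) * Z = 1) (wn wd : ℤ) (hwn : 0 < wn) (hwd : 0 < wd)
    (A : ι → S3) (hA : ∀ v, (A v).toM.PosSemidef) (lam : ι → ℝ) (hlam : ∀ v, 0 ≤ lam v)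
    (hF : Fᵀ * F = ∑ v, lam v • (A v).toM) (C M : M3) (κ μ : ℤ) (P : S3) (D : ℤ)
    (hC : 2 * (κ : ℝ) ≤ trace (Fᵀ * C.toM)) (hM : 2 * ((wn : ℝ) / wd * μ) ≤ trace ((F * Z)ᵀ * M.toM))
    (h : LeafOK wn wd A C M κ μ P D) : False := by
  obtain ⟨h1, h2, h3, hκ, hμ, hD0, hDD, hE, hv⟩ := h
  obtain ⟨E, hEdef⟩ : ∃ E : ℤ, E = 2 * P.det * (D - P.tr) - M3.pair (M3.smul P.adj C) M := ⟨_, rfl⟩
  rw [← hEdef] at hE hv
  have hPpsd := P.posSemidef h1 h2 h3
  have hd : (0 : ℝ) < P.det := by exact_mod_cast h3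
  have hd0 : (P.det : ℝ) ≠ 0 := hd.ne'
  obtain ⟨R, hR⟩ : ∃ R : Matrix (Fin 3) (Fin 3) ℝ, R = (P.det : ℝ)⁻¹ • P.adj.toM := ⟨_, rfl⟩
  have hPR : P.toM * R = 1 := by
    rw [hR, Matrix.mul_smul, S3.toM_mul_adj, smul_smul, inv_mul_cancel₀ hd0, one_smul]
  have hRinv : R = P.toM⁻¹ := (Matrix.inv_eq_right_inv hPR).symm
  have hRpsd : R.PosSemidef := by
    rw [hRinv]
    exact hPpsd.inv
  have hdv : ∀ v, (0 : ℝ) < (A v).det := fun v => by exact_mod_cast (hv v).1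
  have hX : ∀ v, (A v).toM * (((A v).det : ℝ)⁻¹ • ((A v).adj.toM * ((1 / 2 : ℝ) • M.toM)ᵀ)) =
      ((1 / 2 : ℝ) • M.toM)ᵀ := by
    intro v
    rw [Matrix.mul_smul, ← Matrix.mul_assoc, S3.toM_mul_adj, Matrix.smul_mul, smul_smul,
      inv_mul_cancel₀ (hdv v).ne', one_smul, Matrix.one_mul]
  have hU : ∀ v, trace (R * (((1 / 2 : ℝ) • C.toM) * (A v).toM * ((1 / 2 : ℝ) • C.toM)ᵀ)) =
      (S3.pair (A v) (M3.tmul C (M3.smul P.adj C)) : ℝ) / (4 * P.det) := by
    intro v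
    rw [pair_real, m3_tmul, hR, Matrix.transpose_smul]
    simp only [Matrix.smul_mul, Matrix.mul_smul, trace_smul, smul_eq_mul]
    have e : trace (P.adj.toM * (C.toM * (A v).toM * C.toMᵀ)) =
        trace ((A v).toM * (C.toMᵀ * P.adj.toM * C.toM)) := by
      calc trace (P.adj.toM * (C.toM * (A v).toM * C.toMᵀ)) =
          trace ((P.adj.toM * C.toM) * ((A v).toM * C.toMᵀ)) := by simp only [Matrix.mul_assoc]
        _ = trace (((A v).toM * C.toMᵀ) * (P.adj.toM * C.toM)) := trace_mul_comm _ _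
        _ = trace ((A v).toM * (C.toMᵀ * P.adj.toM * C.toM)) := by simp only [Matrix.mul_assoc]
    rw [e]
    field_simp
    ring
  have hV : ∀ v, trace (R * (((1 / 2 : ℝ) • M.toM) *
      (((A v).det : ℝ)⁻¹ • ((A v).adj.toM * ((1 / 2 : ℝ) • M.toM)ᵀ)))) =
      (S3.pair (A v).adj (M3.tmul M (M3.smul P.adj M)) : ℝ) / (4 * P.det * (A v).det) := by
    intro v
    have hdv' := (hdv v).ne'
    rw [pair_real, m3_tmul, hR, Matrix.transpose_smul]
    simp only [Matrix.smul_mul, Matrix.mul_smul, trace_smul, smul_eq_mul]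
    have e : trace (P.adj.toM * (M.toM * ((A v).adj.toM * M.toMᵀ))) =
        trace ((A v).adj.toM * (M.toMᵀ * P.adj.toM * M.toM)) := by
      calc trace (P.adj.toM * (M.toM * ((A v).adj.toM * M.toMᵀ))) =
          trace ((P.adj.toM * M.toM) * ((A v).adj.toM * M.toMᵀ)) := by simp only [Matrix.mul_assoc]
        _ = trace (((A v).adj.toM * M.toMᵀ) * (P.adj.toM * M.toM)) := trace_mul_comm _ _
        _ = trace ((A v).adj.toM * (M.toMᵀ * P.adj.toM * M.toM)) := by simp only [Matrix.mul_assoc]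
    rw [e]
    field_simp
    ring
  have hT : trace P.toM + trace (R * (((1 / 2 : ℝ) • C.toM) * ((1 / 2 : ℝ) • M.toM)ᵀ +
      ((1 / 2 : ℝ) • M.toM) * ((1 / 2 : ℝ) • C.toM)ᵀ)) =
      (P.tr : ℝ) + (M3.pair (M3.smul P.adj C) M : ℝ) / (2 * P.det) := by
    rw [tr_real, m3_pair, m3_smul, hR, Matrix.transpose_smul, Matrix.transpose_smul]
    simp only [Matrix.smul_mul, Matrix.mul_smul, Matrix.mul_add, trace_smul, trace_add,
      smul_eq_mul]
    have e : trace (P.adj.toM * (M.toM * C.toMᵀ)) = trace (P.adj.toM * (C.toM * M.toMᵀ)) := by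
      have h5 : (P.adj.toM * (M.toM * C.toMᵀ))ᵀ = C.toM * M.toMᵀ * P.adj.toM := by
        rw [Matrix.transpose_mul, Matrix.transpose_mul, Matrix.transpose_transpose,
          S3.toM_transpose]
      rw [← trace_transpose, h5, trace_mul_comm]
    rw [e, Matrix.mul_assoc]
    field_simp
    ring
  have hER : (E : ℝ) = 2 * P.det * ((D : ℝ) - ((P.tr : ℝ) +
      (M3.pair (M3.smul P.adj C) M : ℝ) / (2 * P.det))) := by
    rw [hEdef]
    push_cast
    field_simp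
    ring
  have hE' : (0 : ℝ) < E := by exact_mod_cast hE
  have hTD : (P.tr : ℝ) + (M3.pair (M3.smul P.adj C) M : ℝ) / (2 * P.det) < D := by
    rw [hER] at hE'
    have h5 : (0 : ℝ) < 2 * P.det := by positivity
    have := (mul_pos_iff_of_pos_left h5).mp hE'
    linarith
  refine leaf_false F ((1 / 2 : ℝ) • C.toM) ((1 / 2 : ℝ) • M.toM) Z P.toM R hZ hPR
    P.toM_transpose hRpsd lam hlam (fun v => (A v).toM)
    (fun v => ((A v).det : ℝ)⁻¹ • ((A v).adj.toM * ((1 / 2 : ℝ) • M.toM)ᵀ)) hF hA hX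
    (fun v => (S3.pair (A v) (M3.tmul C (M3.smul P.adj C)) : ℝ) / (4 * P.det))
    (fun v => (S3.pair (A v).adj (M3.tmul M (M3.smul P.adj M)) : ℝ) / (4 * P.det * (A v).det))
    ?_ ?_ (fun v => (hU v).le) (fun v => (hV v).le)
    ((P.tr : ℝ) + (M3.pair (M3.smul P.adj C) M : ℝ) / (2 * P.det)) D κ ((wn : ℝ) / wd * μ)
    hT.le hTD (by exact_mod_cast hD0) ?_ (by exact_mod_cast hκ) ?_ ?_ ?_ ?_
  · intro v
    rw [← hU v]
    have := trace_conj_nonneg R ((A v).toM) (((1 / 2 : ℝ) • C.toM)ᵀ) hRpsd (hA v)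
    simpa using this
  · intro v
    rw [← hV v]
    have := trace_conj_nonneg R ((A v).toM)
      (((A v).det : ℝ)⁻¹ • ((A v).adj.toM * ((1 / 2 : ℝ) • M.toM)ᵀ)) hRpsd (hA v)
    have e := hX v
    have hAs := (A v).toM_transpose
    have e2 : (((A v).det : ℝ)⁻¹ • ((A v).adj.toM * ((1 / 2 : ℝ) • M.toM)ᵀ))ᵀ * (A v).toM =
        (1 / 2 : ℝ) • M.toM := by
      have := congrArg transpose e
      rw [Matrix.transpose_mul, hAs, Matrix.transpose_transpose] at this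
      exact this
    rw [e2] at this
    exact this
  · intro v
    have h6 := (hv v).2
    have h6' : (S3.pair (A v) (M3.tmul C (M3.smul P.adj C)) : ℝ) *
        (S3.pair (A v).adj (M3.tmul M (M3.smul P.adj M)) : ℝ) ≤ (E : ℝ) ^ 2 * (A v).det := by
      exact_mod_cast h6
    have h7 : ((D : ℝ) - ((P.tr : ℝ) + (M3.pair (M3.smul P.adj C) M : ℝ) / (2 * P.det))) ^ 2 =
        (E : ℝ) ^ 2 / (4 * (P.det : ℝ) ^ 2) := by
      rw [hER]
      field_simp
      ring
    rw [h7, le_div_iff₀ (by positivity)]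
    have hdv' := (hdv v).ne'
    have h8 : 4 * ((S3.pair (A v) (M3.tmul C (M3.smul P.adj C)) : ℝ) / (4 * P.det) *
        ((S3.pair (A v).adj (M3.tmul M (M3.smul P.adj M)) : ℝ) / (4 * P.det * (A v).det))) *
        (4 * (P.det : ℝ) ^ 2) = (S3.pair (A v) (M3.tmul C (M3.smul P.adj C)) : ℝ) *
        (S3.pair (A v).adj (M3.tmul M (M3.smul P.adj M)) : ℝ) / (A v).det := by
      field_simp
    rw [h8, div_le_iff₀ (hdv v)]
    exact h6'
  · have : (0 : ℝ) ≤ μ := by exact_mod_cast hμ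
    have h5 : (0 : ℝ) < wn := by exact_mod_cast hwn
    have h6 : (0 : ℝ) < wd := by exact_mod_cast hwd
    positivity
  · have h6 : (0 : ℝ) < wd := by exact_mod_cast hwd
    have h7 : (wd : ℝ) * ((D : ℝ) * D) < 16 * wn * ((κ : ℝ) * μ) := by exact_mod_cast hDD
    have h8 : 16 * ((κ : ℝ) * ((wn : ℝ) / wd * μ)) = (16 * wn * ((κ : ℝ) * μ)) / wd := by
      field_simp
    rw [h8, lt_div_iff₀ h6]
    linarith
  · rw [Matrix.mul_smul, trace_smul, smul_eq_mul]
    linarith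
  · rw [Matrix.mul_smul, trace_smul, smul_eq_mul]
    linarith

end Pool.Agent.Helper28.TT
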