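import Mathlib
import Pool.Agent.Helper28.TT.LeafSound

/-! The integer test of a leaf in the normalisation of the generator, with explicit inverses. -/

set_option autoImplicit false

namespace Pool.Agent.Helper28.TT

open Matrix

/-- `A B Nᵀ = d Nᵀ` for the rows of `N` -/
def invOK (c : Corner) (n : M3) : Prop :=
  c.a.toM * (c.b.toM * n.toMᵀ) = (c.d : ℝ) • n.toMᵀ

/-- the integer test of a leaf: `κ`, `μ` the right sides, `P` the metric, `D` the square root;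
`wn / wd` is the bound for the facts of the second type with right side `1`. -/
def LeafOK2 {ι : Type*} (wn wd : ℤ) (A : ι → Corner) (C M : M3) (κ μ : ℤ) (P : S3) (D : ℤ) : Prop :=
  0 < P.a ∧ 0 < P.a * P.b - P.d * P.d ∧ 0 < P.det ∧ 0 ≤ κ ∧ 0 ≤ μ ∧ 0 ≤ D ∧
  wd * (D * D) < 16 * wn * (κ * μ) ∧
  0 < P.det * (D - P.tr) - 2 * M3.pair (M3.smul P.adj C) M ∧
  ∀ v, 0 < (A v).d ∧ invOK (A v) M ∧
    4 * (S3.pair (A v).a (M3.tmul C (M3.smul P.adj C)) * S3.pair (A v).b (M3.tmul M (M3.smul P.adj M))) ≤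
      (P.det * (D - P.tr) - 2 * M3.pair (M3.smul P.adj C) M) ^ 2 * (A v).d

/-- **Soundness of the integer test.** -/
theorem leaf_int2 {ι : Type*} [Fintype ι] (F Z : Matrix (Fin 3) (Fin 3) ℝ) (hZ : (Fᵀ * F) * Z = 1)
    (wn wd : ℤ) (hwn : 0 < wn) (hwd : 0 < wd) (A : ι → Corner)
    (hpsd : ∀ v, (A v).a.toM.PosSemidef) (lam : ι → ℝ) (hlam : ∀ v, 0 ≤ lam v)
    (hF' : Fᵀ * F = ∑ v, lam v • (A v).a.toM) (C M : M3) (κ μ : ℤ) (P : S3) (D : ℤ)
    (hC : (κ : ℝ) ≤ trace (Fᵀ * C.toM)) (hM : (wn : ℝ) / wd * μ ≤ trace ((F * Z)ᵀ * M.toM))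
    (h : LeafOK2 wn wd A C M κ μ P D) : False := by
  obtain ⟨h1, h2, h3, hκ, hμ, hD0, hDD, hE, hv⟩ := h
  obtain ⟨E, hEdef⟩ : ∃ E : ℤ, E = P.det * (D - P.tr) - 2 * M3.pair (M3.smul P.adj C) M := ⟨_, rfl⟩
  rw [← hEdef] at hE hv
  have hPpsd := P.posSemidef h1 h2 h3
  have hd : (0 : ℝ) < P.det := by exact_mod_cast h3
  have hd0 : (P.det : ℝ) ≠ 0 := hd.ne'
  obtain ⟨R, hR⟩ : ∃ R : Matrix (Fin 3) (Fin 3) ℝ, R = (P.det : ℝ)⁻¹ • P.adj.toM := ⟨_, rfl⟩
  have hPR : P.toM * R = 1 := by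
    rw [hR, Matrix.mul_smul, S3.toM_mul_adj, smul_smul, inv_mul_cancel₀ hd0, one_smul]
  have hRinv : R = P.toM⁻¹ := (Matrix.inv_eq_right_inv hPR).symm
  have hRpsd : R.PosSemidef := by
    rw [hRinv]
    exact hPpsd.inv
  have hdv : ∀ v, (0 : ℝ) < (A v).d := fun v => by exact_mod_cast (hv v).1
  have hX : ∀ v, (A v).a.toM * (((A v).d : ℝ)⁻¹ • ((A v).b.toM * M.toMᵀ)) = M.toMᵀ := by
    intro v
    rw [Matrix.mul_smul, (hv v).2.1, smul_smul, inv_mul_cancel₀ (hdv v).ne', one_smul]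
  have hU : ∀ v, trace (R * (C.toM * (A v).a.toM * C.toMᵀ)) =
      (S3.pair (A v).a (M3.tmul C (M3.smul P.adj C)) : ℝ) / P.det := by
    intro v
    rw [pair_real, m3_tmul, hR]
    simp only [Matrix.smul_mul, trace_smul, smul_eq_mul]
    have e : trace (P.adj.toM * (C.toM * (A v).a.toM * C.toMᵀ)) =
        trace ((A v).a.toM * (C.toMᵀ * P.adj.toM * C.toM)) := by
      calc trace (P.adj.toM * (C.toM * (A v).a.toM * C.toMᵀ)) =
          trace ((P.adj.toM * C.toM) * ((A v).a.toM * C.toMᵀ)) := by simp only [Matrix.mul_assoc]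
        _ = trace (((A v).a.toM * C.toMᵀ) * (P.adj.toM * C.toM)) := trace_mul_comm _ _
        _ = trace ((A v).a.toM * (C.toMᵀ * P.adj.toM * C.toM)) := by simp only [Matrix.mul_assoc]
    rw [e]
    field_simp
  have hV : ∀ v, trace (R * (M.toM * (((A v).d : ℝ)⁻¹ • ((A v).b.toM * M.toMᵀ)))) =
      (S3.pair (A v).b (M3.tmul M (M3.smul P.adj M)) : ℝ) / (P.det * (A v).d) := by
    intro v
    have hdv' := (hdv v).ne'
    rw [pair_real, m3_tmul, hR]
    simp only [Matrix.smul_mul, Matrix.mul_smul, trace_smul, smul_eq_mul]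
    have e : trace (P.adj.toM * (M.toM * ((A v).b.toM * M.toMᵀ))) =
        trace ((A v).b.toM * (M.toMᵀ * P.adj.toM * M.toM)) := by
      calc trace (P.adj.toM * (M.toM * ((A v).b.toM * M.toMᵀ))) =
          trace ((P.adj.toM * M.toM) * ((A v).b.toM * M.toMᵀ)) := by simp only [Matrix.mul_assoc]
        _ = trace (((A v).b.toM * M.toMᵀ) * (P.adj.toM * M.toM)) := trace_mul_comm _ _
        _ = trace ((A v).b.toM * (M.toMᵀ * P.adj.toM * M.toM)) := by simp only [Matrix.mul_assoc]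
    rw [e]
    field_simp
  have hT : trace P.toM + trace (R * (C.toM * M.toMᵀ + M.toM * C.toMᵀ)) =
      (P.tr : ℝ) + 2 * (M3.pair (M3.smul P.adj C) M : ℝ) / P.det := by
    rw [tr_real, m3_pair, m3_smul, hR]
    simp only [Matrix.smul_mul, Matrix.mul_add, trace_smul, trace_add, smul_eq_mul]
    have e : trace (P.adj.toM * (M.toM * C.toMᵀ)) = trace (P.adj.toM * (C.toM * M.toMᵀ)) := by
      have h5 : (P.adj.toM * (M.toM * C.toMᵀ))ᵀ = C.toM * M.toMᵀ * P.adj.toM := by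
        rw [Matrix.transpose_mul, Matrix.transpose_mul, Matrix.transpose_transpose,
          S3.toM_transpose]
      rw [← trace_transpose, h5, trace_mul_comm]
    rw [e, Matrix.mul_assoc]
    field_simp
    ring
  have hER : (E : ℝ) = P.det * ((D : ℝ) - ((P.tr : ℝ) +
      2 * (M3.pair (M3.smul P.adj C) M : ℝ) / P.det)) := by
    rw [hEdef]
    push_cast
    field_simp
    ring
  have hE' : (0 : ℝ) < E := by exact_mod_cast hE
  have hTD : (P.tr : ℝ) + 2 * (M3.pair (M3.smul P.adj C) M : ℝ) / P.det < D := by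
    rw [hER] at hE'
    have := (mul_pos_iff_of_pos_left hd).mp hE'
    linarith
  refine leaf_false F C.toM M.toM Z P.toM R hZ hPR
    P.toM_transpose hRpsd lam hlam (fun v => (A v).a.toM)
    (fun v => ((A v).d : ℝ)⁻¹ • ((A v).b.toM * M.toMᵀ)) hF' hpsd hX
    (fun v => (S3.pair (A v).a (M3.tmul C (M3.smul P.adj C)) : ℝ) / P.det)
    (fun v => (S3.pair (A v).b (M3.tmul M (M3.smul P.adj M)) : ℝ) / (P.det * (A v).d))
    ?_ ?_ (fun v => (hU v).le) (fun v => (hV v).le)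
    ((P.tr : ℝ) + 2 * (M3.pair (M3.smul P.adj C) M : ℝ) / P.det) D κ ((wn : ℝ) / wd * μ)
    hT.le hTD (by exact_mod_cast hD0) ?_ (by exact_mod_cast hκ) ?_ ?_ hC hM
  · intro v
    rw [← hU v]
    have := trace_conj_nonneg R ((A v).a.toM) (C.toMᵀ) hRpsd (hpsd v)
    simpa using this
  · intro v
    rw [← hV v]
    have := trace_conj_nonneg R ((A v).a.toM)
      (((A v).d : ℝ)⁻¹ • ((A v).b.toM * M.toMᵀ)) hRpsd (hpsd v)
    have e := hX v
    have hAs := (A v).a.toM_transpose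
    have e2 : (((A v).d : ℝ)⁻¹ • ((A v).b.toM * M.toMᵀ))ᵀ * (A v).a.toM = M.toM := by
      have := congrArg transpose e
      rw [Matrix.transpose_mul, hAs, Matrix.transpose_transpose] at this
      exact this
    rw [e2] at this
    exact this
  · intro v
    have h6 := (hv v).2.2
    have h6' : 4 * ((S3.pair (A v).a (M3.tmul C (M3.smul P.adj C)) : ℝ) *
        (S3.pair (A v).b (M3.tmul M (M3.smul P.adj M)) : ℝ)) ≤ (E : ℝ) ^ 2 * (A v).d := by
      exact_mod_cast h6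
    have h7 : ((D : ℝ) - ((P.tr : ℝ) + 2 * (M3.pair (M3.smul P.adj C) M : ℝ) / P.det)) ^ 2 =
        (E : ℝ) ^ 2 / ((P.det : ℝ) ^ 2) := by
      rw [hER]
      field_simp
    rw [h7, le_div_iff₀ (by positivity)]
    have hdv' := (hdv v).ne'
    have h8 : 4 * ((S3.pair (A v).a (M3.tmul C (M3.smul P.adj C)) : ℝ) / P.det *
        ((S3.pair (A v).b (M3.tmul M (M3.smul P.adj M)) : ℝ) / (P.det * (A v).d))) *
        ((P.det : ℝ) ^ 2) = 4 * ((S3.pair (A v).a (M3.tmul C (M3.smul P.adj C)) : ℝ) *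
        (S3.pair (A v).b (M3.tmul M (M3.smul P.adj M)) : ℝ)) / (A v).d := by
      field_simp
    rw [h8, div_le_iff₀ (hdv v)]
    exact h6'
  · have : (0 : ℝ) ≤ μ := by exact_mod_cast hμ
    have h5 : (0 : ℝ) < wn := by exact_mod_cast hwn
    have h6 : (0 : ℝ) < wd := by exact_mod_cast hwd
    positivity
  · have h6 : (0 : ℝ) < wd := by exact_mod_cast hwd
    have h7 : (wd : ℝ) * ((D : ℝ) * D) < 16 * wn * ((κ : ℝ) * μ) := by exact_mod_cast hDD
    have h8 : 16 * ((κ : ℝ) * ((wn : ℝ) / wd * μ)) = (16 * wn * ((κ : ℝ) * μ)) / wd := by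
      field_simp
    rw [h8, lt_div_iff₀ h6]
    linarith

end Pool.Agent.Helper28.TT
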