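import Pool.Agent.Helper28.TT.Code

/-! The disjunctions of Theorem A. -/

set_option autoImplicit false

namespace Pool.Agent.Helper28.TT

/-- an integer vector -/
structure V3 where
  x : Int
  y : Int
  z : Int
  deriving DecidableEq

/-- `x yᵀ` -/
def outer (x y : V3) : M3 :=
  ⟨x.x * y.x, x.x * y.y, x.x * y.z, x.y * y.x, x.y * y.y, x.y * y.z,
    x.z * y.x, x.z * y.y, x.z * y.z⟩

/-- `a x + b y` -/
def V3.lin (a : Int) (x : V3) (b : Int) (y : V3) : V3 :=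
  ⟨a * x.x + b * y.x, a * x.y + b * y.y, a * x.z + b * y.z⟩

/-- the four vectors `g` -/
def gv : Nat → V3
  | 0 => ⟨1, 1, 1⟩
  | 1 => ⟨1, -1, -1⟩
  | 2 => ⟨-1, 1, -1⟩
  | _ => ⟨-1, -1, 1⟩

/-- the superbase -/
def fv : Nat → V3
  | 0 => ⟨1, 0, 0⟩
  | 1 => ⟨0, 1, 0⟩
  | 2 => ⟨0, 0, 1⟩
  | _ => ⟨-1, -1, -1⟩

/-- the chain -/
def pv : Nat → V3
  | 0 => ⟨0, 0, 0⟩
  | 1 => ⟨1, 0, 0⟩
  | 2 => ⟨1, 1, 0⟩
  | _ => ⟨1, 1, 1⟩

/-- the chain fact: the sum of `g_k x_kᵀ` -/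
def cid : M3 := ⟨-1, -2, -1, -1, 0, -1, -1, 0, 1⟩

/-- four different indices -/
structure Q4 where
  a : Nat
  b : Nat
  c : Nat
  d : Nat

/-- the orders of the four vertices -/
def perms : List Q4 :=
  [⟨0, 1, 2, 3⟩, ⟨0, 1, 3, 2⟩, ⟨0, 2, 1, 3⟩, ⟨0, 2, 3, 1⟩, ⟨0, 3, 1, 2⟩, ⟨0, 3, 2, 1⟩,
    ⟨1, 0, 2, 3⟩, ⟨1, 0, 3, 2⟩, ⟨1, 2, 0, 3⟩, ⟨1, 2, 3, 0⟩, ⟨1, 3, 0, 2⟩, ⟨1, 3, 2, 0⟩,
    ⟨2, 0, 1, 3⟩, ⟨2, 0, 3, 1⟩, ⟨2, 1, 0, 3⟩, ⟨2, 1, 3, 0⟩, ⟨2, 3, 0, 1⟩, ⟨2, 3, 1, 0⟩,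
    ⟨3, 0, 1, 2⟩, ⟨3, 0, 2, 1⟩, ⟨3, 1, 0, 2⟩, ⟨3, 1, 2, 0⟩, ⟨3, 2, 0, 1⟩, ⟨3, 2, 1, 0⟩]

/-- the tag of a truncation: `L_k ≤ 1 - j / 64` -/
def tagT (k j : Nat) : Nat := 2 * (k + 4 * j)

/-- the tag of an order: `a` is the place of the maximum and `d` of the minimum -/
def tagA (u a d : Nat) : Nat := 2 * (a + 4 * (d + 4 * u)) + 1

/-- the depth of the truncation at the vertex `k` -/
def tau (k : Nat) : List Item → Nat
  | [] => 0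
  | .t n :: l => match decide (n % 2 = 0 ∧ n / 2 % 4 = k) with
    | true => n / 8
    | false => tau k l
  | _ :: l => tau k l

/-- the order of the dual `u`, if it is known -/
def ordA (u : Nat) : List Item → Option (Nat × Nat)
  | [] => none
  | .t n :: l => match decide (n % 2 = 1 ∧ n / 32 = u) with
    | true => some (n / 2 % 4, n / 8 % 4)
    | false => ordA u l
  | _ :: l => ordA u l

/-- the fact of the width for an order of the vertices; depths `ta`, `td` over `s` -/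
def wItem (u : V3) (q : Q4) (s ta td : Nat) : Item :=
  .w (outer (V3.lin (-1) (V3.lin (Int.ofNat s - Int.ofNat ta) (gv q.a) (Int.ofNat ta) (gv q.b))
    1 (V3.lin (Int.ofNat td) (gv q.c) (Int.ofNat s - Int.ofNat td) (gv q.d))) u)
    (2 * Int.ofNat s)

/-- depth at the vertex `k` -/
def pick (t0 t1 t2 t3 : Nat) : Nat → Nat
  | 0 => t0
  | 1 => t1
  | 2 => t2
  | _ => t3

/-- is the order used -/
def useQ (o : Option (Nat × Nat)) (q : Q4) (ta td : Nat) : Bool :=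
  (match o with
    | none => true
    | some (i, j) => decide (q.a = i) && decide (q.d = j)) &&
  (decide (q.b < q.c) || (decide (0 < ta) || decide (0 < td)))

/-- the alternatives for the width in the direction `u` -/
def wAlts (u : V3) (code : Nat) (o : Option (Nat × Nat)) (t0 t1 t2 t3 : Nat) :
    List Q4 → List (List Item)
  | [] => []
  | q :: l =>
    match useQ o q (pick t0 t1 t2 t3 q.a) (pick t0 t1 t2 t3 q.d) with
    | false => wAlts u code o t0 t1 t2 t3 l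
    | true =>
      match Nat.gcd 64 (Nat.gcd (pick t0 t1 t2 t3 q.a) (pick t0 t1 t2 t3 q.d)) with
      | g => [wItem u q (64 / g) (pick t0 t1 t2 t3 q.a / g) (pick t0 t1 t2 t3 q.d / g),
          .t (tagA code q.a q.d)] :: wAlts u code o t0 t1 t2 t3 l

/-- the depths may be used together -/
def tauOK (t0 t1 t2 t3 : Nat) : Bool :=
  decide (t0 + t1 ≤ 64) && (decide (t0 + t2 ≤ 64) && (decide (t0 + t3 ≤ 64) &&
  (decide (t1 + t2 ≤ 64) && (decide (t1 + t3 ≤ 64) && decide (t2 + t3 ≤ 64)))))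

/-- the vector of a code -/
def ofCode (n : Nat) : V3 :=
  ⟨Int.ofNat (n % 8) - 4, Int.ofNat (n / 8 % 8) - 4, Int.ofNat (n / 64 % 8) - 4⟩

/-- two entries of the row `j` have the wrong sign; `s = 1` or `-1` -/
def mAlt (s : Int) (j l m : Nat) : List Item :=
  [.c (outer (V3.lin s (gv j) 0 (gv j)) (fv l)) 0, .c (outer (V3.lin s (gv j) 0 (gv j)) (fv m)) 0]

/-- the alternatives for one row -/
def mRow (s : Int) (j : Nat) (l : List (List Item)) : List (List Item) :=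
  mAlt s j 0 1 :: mAlt s j 0 2 :: mAlt s j 0 3 :: mAlt s j 1 2 :: mAlt s j 1 3 :: mAlt s j 2 3 :: l

/-- the label `i` of the point `z` with depth `j / (j + r)`... -/
def zLab (z : V3) (s j i : Nat) : List Item :=
  [.c (M3.acc (Int.ofNat j) cid (outer (V3.lin (Int.ofNat s) (gv i) 0 (gv i))
    (V3.lin 1 z (-1) (pv i)))) 0]

/-- the rule of Theorem A -/
def ruleA : Rule := fun env id =>
  match id % 4 with
  | 0 =>
    match tauOK (tau 0 env) (tau 1 env) (tau 2 env) (tau 3 env), decide (ofCode (id / 4) = ⟨0, 0, 0⟩) with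
    | true, false => some (wAlts (ofCode (id / 4)) (id / 4) (ordA (id / 4) env) (tau 0 env) (tau 1 env)
        (tau 2 env) (tau 3 env) perms)
    | _, _ => none
  | 1 => some (mRow (-1) 0 (mRow (-1) 1 (mRow (-1) 2 (mRow (-1) 3 []))))
  | 2 => some (mRow 1 0 (mRow 1 1 (mRow 1 2 (mRow 1 3 []))))
  | _ =>
    match decide (id / 2048 < 64), Nat.gcd 64 (id / 2048) with
    | true, g =>
      some [zLab (ofCode (id / 4)) (64 / g) (id / 2048 / g) 0, zLab (ofCode (id / 4)) (64 / g) (id / 2048 / g) 1,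
        zLab (ofCode (id / 4)) (64 / g) (id / 2048 / g) 2, zLab (ofCode (id / 4)) (64 / g) (id / 2048 / g) 3,
        [.t (tagT 0 (id / 2048))], [.t (tagT 1 (id / 2048))], [.t (tagT 2 (id / 2048))],
        [.t (tagT 3 (id / 2048))]]
    | _, _ => none

/-- the corners of the root simplices -/
def root (r : Nat) : List Vx :=
  match r with
  | 0 => [mkVx ⟨1, 0, 0, 0, 0, 0⟩ 1, mkVx ⟨1, 0, 0, 0, 0, 1⟩ 2, mkVx ⟨1, 0, 0, 1, 0, 1⟩ 3,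
      mkVx ⟨1, 0, 1, 1, 0, 1⟩ 4, mkVx ⟨0, 1, 0, 0, 0, 0⟩ 1, mkVx ⟨0, 0, 0, 0, 1, 0⟩ 1]
  | 1 => [mkVx ⟨1, 0, 0, 0, 0, 0⟩ 1, mkVx ⟨1, 0, 0, 1, 0, 0⟩ 2, mkVx ⟨1, 0, 0, 1, 0, 1⟩ 3,
      mkVx ⟨1, 0, 1, 1, 0, 1⟩ 4, mkVx ⟨0, 1, 0, 0, 0, 0⟩ 1, mkVx ⟨0, 0, 0, 0, 1, 0⟩ 1]
  | _ => [mkVx ⟨1, 0, 0, 0, 0, 0⟩ 1, mkVx ⟨1, 0, 0, 1, 0, 0⟩ 2, mkVx ⟨1, 0, 1, 1, 0, 0⟩ 3,
      mkVx ⟨1, 0, 1, 1, 0, 1⟩ 4, mkVx ⟨0, 1, 0, 0, 0, 0⟩ 1, mkVx ⟨0, 0, 0, 0, 1, 0⟩ 1]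

/-- the root task -/
def rootTask (r : Nat) : Task := ⟨root r, [.c cid 1]⟩

end Pool.Agent.Helper28.TT
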