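import Mathlib
import Pool.Agent.Helper28.TT.LeafB

/-! Soundness of the machine. -/

set_option autoImplicit false

namespace Pool.Agent.Helper28.TT

open Matrix Finset

/-- the real data -/
structure Model where
  F : Matrix (Fin 3) (Fin 3) ℝ
  Z : Matrix (Fin 3) (Fin 3) ℝ
  hZ : (Fᵀ * F) * Z = 1
  tag : ℕ → Prop

/-- the meaning of a fact -/
def Item.holds (X : Model) : Item → Prop
  | .c m k => (k : ℝ) ≤ trace (X.Fᵀ * m.toM)
  | .w m k => (wn : ℝ) / wd * k ≤ trace ((X.F * X.Z)ᵀ * m.toM)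
  | .t n => X.tag n

/-- all parameters nonnegative -/
def P6.nonneg (p : P6) : Prop := 0 ≤ p.q0 ∧ 0 ≤ p.q1 ∧ 0 ≤ p.q2 ∧ 0 ≤ p.q3 ∧ 0 ≤ p.q4 ∧ 0 ≤ p.q5

theorem mkVx_p (p : P6) (s : ℕ) : (mkVx p s).p = p := by
  unfold mkVx
  split
  · rfl
  · split <;> rfl

theorem mkVx_s (p : P6) (s : ℕ) : (mkVx p s).s = s := by
  unfold mkVx
  split
  · rfl
  · split <;> rfl

theorem mkVx_a (p : P6) (s : ℕ) : (mkVx p s).c.a = p.form := by
  unfold mkVx
  split
  · rfl
  · split <;> rfl

/-- a regular corner has the right inverse -/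
theorem mkVx_inv (p : P6) (s : ℕ) (h : (mkVx p s).sing = false) (n : M3) : invOK (mkVx p s).c n := by
  have h1 : (mkVx p s).c.a = p.form ∧ (mkVx p s).c.b = p.form.adj ∧ (mkVx p s).c.d = p.form.det := by
    unfold mkVx at h ⊢
    split at h
    · exact ⟨rfl, rfl, rfl⟩
    · split at h <;> cases h
  unfold invOK
  rw [h1.1, h1.2.1, h1.2.2, ← Matrix.mul_assoc, S3.toM_mul_adj, Matrix.smul_mul, Matrix.one_mul]

theorem rowOK_real (c : Corner) (x y z : ℤ) (h : rowOK c x y z = true) :
    (c.a.a : ℝ) * (c.b.a * x + c.b.d * y + c.b.e * z) + c.a.d * (c.b.d * x + c.b.b * y + c.b.f * z) +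
      c.a.e * (c.b.e * x + c.b.f * y + c.b.c * z) = c.d * x ∧
    (c.a.d : ℝ) * (c.b.a * x + c.b.d * y + c.b.e * z) + c.a.b * (c.b.d * x + c.b.b * y + c.b.f * z) +
      c.a.f * (c.b.e * x + c.b.f * y + c.b.c * z) = c.d * y ∧
    (c.a.e : ℝ) * (c.b.a * x + c.b.d * y + c.b.e * z) + c.a.f * (c.b.d * x + c.b.b * y + c.b.f * z) +
      c.a.c * (c.b.e * x + c.b.f * y + c.b.c * z) = c.d * z := by
  unfold rowOK at h
  simp only [Bool.and_eq_true, decide_eq_true_eq] at h
  obtain ⟨h0, h1, h2⟩ := h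
  refine ⟨?_, ?_, ?_⟩
  · exact_mod_cast h0
  · exact_mod_cast h1
  · exact_mod_cast h2

theorem singOK_inv (c : Corner) (n : M3) (h : singOK c n = true) : invOK c n := by
  unfold singOK at h
  simp only [Bool.and_eq_true] at h
  obtain ⟨h0, h1, h2⟩ := h
  obtain ⟨a0, a1, a2⟩ := rowOK_real _ _ _ _ h0
  obtain ⟨b0, b1, b2⟩ := rowOK_real _ _ _ _ h1
  obtain ⟨c0, c1, c2⟩ := rowOK_real _ _ _ _ h2
  unfold invOK S3.toM M3.toM
  ext i j
  fin_cases i <;> fin_cases j <;>
    simp only [Matrix.mul_apply, Fin.sum_univ_three, Matrix.transpose_apply, Matrix.smul_apply] <;>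
    simp <;> linarith

/-- the form at a place of the list -/
noncomputable def At (cs : List Vx) (k : ℕ) : Matrix (Fin 3) (Fin 3) ℝ :=
  match nth cs k with
  | some v => v.c.a.toM
  | none => 0

/-- the model is in the task -/
def Task.holds (X : Model) (t : Task) : Prop :=
  (∀ v ∈ t.cs, (∃ p s, v = mkVx p s) ∧ v.p.nonneg) ∧
  (∃ lam : ℕ → ℝ, (∀ k, 0 ≤ lam k) ∧ X.Fᵀ * X.F = ∑ k ∈ range t.cs.length, lam k • At t.cs k) ∧
  ∀ i ∈ t.env, i.holds X

theorem nth_get (cs : List Vx) : ∀ i : Fin cs.length, nth cs i = some (cs.get i) := by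
  induction cs with
  | nil => intro i; exact i.elim0
  | cons a l ih =>
    intro i
    refine Fin.cases ?_ (fun j => ?_) i
    · rfl
    · have := ih j
      simpa [nth] using this

/-- the conditions at the corners -/
theorem cornersOK_mem (M : M3) (U V : S3) (e : ℤ) (cs : List Vx) (h : cornersOK M U V e cs = true) :
    ∀ v ∈ cs, 0 < v.c.d ∧ (v.sing = true → singOK v.c M = true) ∧
      4 * (S3.pair v.c.a U * S3.pair v.c.b V) ≤ e * v.c.d := by
  induction cs with
  | nil => intro v hv; cases hv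
  | cons a l ih =>
    unfold cornersOK at h
    simp only [Bool.and_eq_true, decide_eq_true_eq] at h
    obtain ⟨h0, h1, h2, h3⟩ := h
    intro v hv
    rcases List.mem_cons.mp hv with rfl | hv
    · refine ⟨h0, ?_, h2⟩
      intro hs
      rw [hs] at h1
      exact h1
    · exact ih h3 v hv

/-- soundness of the test of a leaf -/
theorem leafT_false (X : Model) (cs : List Vx) (hcs : ∀ v ∈ cs, (∃ p s, v = mkVx p s) ∧ v.p.nonneg)
    (lam : ℕ → ℝ) (hlam : ∀ k, 0 ≤ lam k)
    (hF : X.Fᵀ * X.F = ∑ k ∈ range cs.length, lam k • At cs k) (C M : M3) (k u : ℤ) (P : S3) (D : ℤ)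
    (hC : (k : ℝ) ≤ trace (X.Fᵀ * C.toM)) (hM : (wn : ℝ) / wd * u ≤ trace ((X.F * X.Z)ᵀ * M.toM))
    (h : leafT cs C M k u P D = true) : False := by
  unfold leafT leafE at h
  simp only [Bool.and_eq_true, decide_eq_true_eq] at h
  obtain ⟨h1, h2, h3, h4, h5, h6, h7, h8, h9⟩ := h
  have hc := cornersOK_mem _ _ _ _ _ h9
  have hmem : ∀ v : Fin cs.length, cs.get v ∈ cs := fun v => List.get_mem cs v
  refine leaf_int2 (ι := Fin cs.length) X.F X.Z X.hZ wn wd (by norm_num [wn]) (by norm_num [wd])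
    (fun v => (cs.get v).c) ?_ (fun v => lam v) (fun v => hlam v) ?_ C M k u P D hC hM
    ⟨h1, h2, h3, h4, h5, h6, h7, h8, ?_⟩
  · intro v
    obtain ⟨⟨p, s, hp⟩, hn⟩ := hcs _ (hmem v)
    rw [hp] at hn ⊢
    rw [mkVx_a]
    rw [mkVx_p] at hn
    exact ofP_psd _ _ _ _ _ _ hn.1 hn.2.1 hn.2.2.1 hn.2.2.2.1 hn.2.2.2.2.1 hn.2.2.2.2.2
  · rw [hF, Finset.sum_range]
    refine Finset.sum_congr rfl fun v _ => ?_
    congr 1
    unfold At
    rw [nth_get]
  · intro v
    obtain ⟨c1, c2, c3⟩ := hc _ (hmem v)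
    refine ⟨c1, ?_, ?_⟩
    · cases hs : (cs.get v).sing with
      | true => exact singOK_inv _ _ (c2 hs)
      | false =>
        obtain ⟨⟨p, s, hp⟩, _⟩ := hcs _ (hmem v)
        simp only
        rw [hp] at hs ⊢
        exact mkVx_inv p s hs M
    · rw [sq]
      exact c3

theorem acc_trace (G : Matrix (Fin 3) (Fin 3) ℝ) (w : ℤ) (m n : M3) :
    trace (Gᵀ * (M3.acc w m n).toM) = w * trace (Gᵀ * m.toM) + trace (Gᵀ * n.toM) := by
  have : (M3.acc w m n).toM = (w : ℝ) • m.toM + n.toM := by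
    unfold M3.acc M3.toM
    ext i j
    fin_cases i <;> fin_cases j <;> simp
  rw [this, Matrix.mul_add, Matrix.mul_smul, trace_add, trace_smul, smul_eq_mul]

theorem comb_false (X : Model) (cs : List Vx) (hcs : ∀ v ∈ cs, (∃ p s, v = mkVx p s) ∧ v.p.nonneg)
    (lam : ℕ → ℝ) (hlam : ∀ k, 0 ≤ lam k)
    (hF : X.Fᵀ * X.F = ∑ k ∈ range cs.length, lam k • At cs k) (P : S3) (D : ℤ) :
    ∀ (env : List Item), (∀ i ∈ env, i.holds X) → ∀ (r : ℕ) (C M : M3) (k u : ℤ),
    (k : ℝ) ≤ trace (X.Fᵀ * C.toM) → (wn : ℝ) / wd * u ≤ trace ((X.F * X.Z)ᵀ * M.toM) →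
    comb cs P D env r C M k u = true → False := by
  intro env
  induction env with
  | nil =>
    intro _ r C M k u hC hM h
    cases r with
    | zero => exact leafT_false X cs hcs lam hlam hF C M k u P D hC hM h
    | succ r => exact leafT_false X cs hcs lam hlam hF C M k u P D hC hM h
  | cons i env ih =>
    intro henv r C M k u hC hM h
    have hi := henv i List.mem_cons_self
    have ih' := ih fun j hj => henv j (List.mem_cons_of_mem _ hj)
    cases r with
    | zero => exact leafT_false X cs hcs lam hlam hF C M k u P D hC hM (by unfold comb at h; exact h)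
    | succ r =>
      cases i with
      | t n => exact ih' _ C M k u hC hM h
      | c m k' =>
        unfold comb at h
        split at h
        · exact ih' _ C M k u hC hM h
        · refine ih' _ _ M _ u ?_ hM h
          have hi' : (k' : ℝ) ≤ trace (X.Fᵀ * m.toM) := hi
          rw [acc_trace]
          push_cast
          have hw : (0 : ℝ) ≤ ((Int.ofNat ((r + 1) / 2 % 65536) : ℤ) : ℝ) := by
            exact Int.cast_nonneg (Int.natCast_nonneg _)
          have := mul_le_mul_of_nonneg_left hi' hw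
          push_cast at this
          linarith
      | w m k' =>
        unfold comb at h
        split at h
        · exact ih' _ C M k u hC hM h
        · refine ih' _ C _ k _ hC ?_ h
          have hi' : (wn : ℝ) / wd * k' ≤ trace ((X.F * X.Z)ᵀ * m.toM) := hi
          rw [acc_trace]
          push_cast
          have hw : (0 : ℝ) ≤ ((Int.ofNat ((r + 1) / 2 % 65536) : ℤ) : ℝ) := by
            exact Int.cast_nonneg (Int.natCast_nonneg _)
          have := mul_le_mul_of_nonneg_left hi' hw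
          push_cast at this
          linarith

end Pool.Agent.Helper28.TT
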