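import Mathlib
import Pool.Agent.Helper28.TT.Sound

/-! Soundness of the machine: splits, branches, the whole run. -/

set_option autoImplicit false

namespace Pool.Agent.Helper28.TT

open Matrix Finset

theorem P6.comb_form (a : ℤ) (p : P6) (b : ℤ) (q : P6) :
    (P6.comb a p b q).form.toM = (a : ℝ) • p.form.toM + (b : ℝ) • q.form.toM := by
  unfold P6.comb P6.form ofP S3.toM
  ext i j
  fin_cases i <;> fin_cases j <;> simp <;> ring

theorem P6.comb_nonneg (a : ℤ) (p : P6) (b : ℤ) (q : P6) (ha : 0 ≤ a) (hb : 0 ≤ b) (hp : p.nonneg)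
    (hq : q.nonneg) : (P6.comb a p b q).nonneg := by
  obtain ⟨p0, p1, p2, p3, p4, p5⟩ := hp
  obtain ⟨q0, q1, q2, q3, q4, q5⟩ := hq
  unfold P6.comb P6.nonneg
  refine ⟨?_, ?_, ?_, ?_, ?_, ?_⟩ <;> simp only <;> positivity

theorem length_setn {α : Type} (x : α) (l : List α) (i : ℕ) : (setn x l i).length = l.length := by
  induction l generalizing i with
  | nil => rfl
  | cons a l ih =>
    cases i with
    | zero => rfl
    | succ i => simp [setn, ih]

theorem nth_setn_ne {α : Type} (x : α) (l : List α) (i k : ℕ) (h : k ≠ i) :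
    nth (setn x l i) k = nth l k := by
  induction l generalizing i k with
  | nil => rfl
  | cons a l ih =>
    cases i with
    | zero =>
      cases k with
      | zero => exact absurd rfl h
      | succ k => rfl
    | succ i =>
      cases k with
      | zero => rfl
      | succ k => exact ih i k (by omega)

theorem nth_setn_eq {α : Type} (x : α) (l : List α) (i : ℕ) (v : α) (h : nth l i = some v) :
    nth (setn x l i) i = some x := by
  induction l generalizing i with
  | nil => cases h
  | cons a l ih =>
    cases i with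
    | zero => rfl
    | succ i => exact ih i h

theorem nth_lt {α : Type} (l : List α) (i : ℕ) (v : α) (h : nth l i = some v) : i < l.length := by
  induction l generalizing i with
  | nil => cases h
  | cons a l ih =>
    cases i with
    | zero => simp
    | succ i =>
      have := ih i h
      simpa using this

theorem nth_mem {α : Type} (l : List α) (i : ℕ) (v : α) (h : nth l i = some v) : v ∈ l := by
  induction l generalizing i with
  | nil => cases h
  | cons a l ih =>
    cases i with
    | zero => cases h; exact List.mem_cons_self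
    | succ i => exact List.mem_cons_of_mem _ (ih i h)

theorem mem_setn {α : Type} (x : α) (l : List α) (i : ℕ) (v : α) (h : v ∈ setn x l i) :
    v = x ∨ v ∈ l := by
  induction l generalizing i with
  | nil => cases h
  | cons a l ih =>
    cases i with
    | zero =>
      rcases List.mem_cons.mp h with h | h
      · exact Or.inl h
      · exact Or.inr (List.mem_cons_of_mem _ h)
    | succ i =>
      rcases List.mem_cons.mp h with h | h
      · exact Or.inr (h ▸ List.mem_cons_self)
      · rcases ih i h with h | h
        · exact Or.inl h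
        · exact Or.inr (List.mem_cons_of_mem _ h)

/-- replace a corner by a point of the edge -/
theorem replaceC {n : ℕ} {A A' : ℕ → Matrix (Fin 3) (Fin 3) ℝ} {lam : ℕ → ℝ} {i j : ℕ} (hij : i ≠ j)
    (hi : i < n) (hj : j < n) {α β : ℝ} (_hα : 0 < α) (hβ : 0 < β)
    (hA : ∀ k, k ≠ j → A' k = A k) (hAj : A' j = α • A i + β • A j) (hlam : ∀ k, 0 ≤ lam k)
    (h : lam j * α ≤ lam i * β) :
    ∃ mu : ℕ → ℝ, (∀ k, 0 ≤ mu k) ∧ ∑ k ∈ range n, mu k • A' k = ∑ k ∈ range n, lam k • A k := by
  obtain ⟨mu, hmu⟩ : ∃ mu : ℕ → ℝ,
      mu = fun k => if k = j then lam j / β else if k = i then lam i - α * (lam j / β) else lam k :=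
    ⟨_, rfl⟩
  have hmj : mu j = lam j / β := by rw [hmu]; simp
  have hmi : mu i = lam i - α * (lam j / β) := by rw [hmu]; simp [hij]
  have hmk : ∀ k, k ≠ i → k ≠ j → mu k = lam k := fun k h1 h2 => by rw [hmu]; simp [h1, h2]
  refine ⟨mu, ?_, ?_⟩
  · intro k
    by_cases h1 : k = j
    · rw [h1, hmj]; exact div_nonneg (hlam j) hβ.le
    · by_cases h2 : k = i
      · rw [h2, hmi, sub_nonneg, ← mul_div_assoc, div_le_iff₀ hβ]
        linarith [mul_comm α (lam j)]
      · rw [hmk k h2 h1]; exact hlam k
  · rw [← sub_eq_zero, ← Finset.sum_sub_distrib]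
    rw [Finset.sum_eq_add i j hij]
    · rw [hmi, hmj, hA i hij, hAj]
      have : lam j = lam j / β * β := by field_simp
      ext a b
      simp only [Matrix.add_apply, Matrix.sub_apply, Matrix.smul_apply, Matrix.zero_apply, smul_eq_mul]
      generalize A i a b = x
      generalize A j a b = y
      have h2 : lam j / β * (α * x + β * y) = α * (lam j / β) * x + lam j * y := by
        field_simp
      rw [h2]; ring
    · intro k _ hk
      rw [hmk k hk.1 hk.2, hA k hk.2, sub_self]
    · intro h; exact absurd (Finset.mem_range.mpr hi) h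
    · intro h; exact absurd (Finset.mem_range.mpr hj) h

theorem At_some (cs : List Vx) (k : ℕ) (v : Vx) (h : nth cs k = some v) : At cs k = v.c.a.toM := by
  unfold At; rw [h]

theorem mid_facts (v w : Vx) (hv : (∃ p s, v = mkVx p s) ∧ v.p.nonneg)
    (hw : (∃ p s, w = mkVx p s) ∧ w.p.nonneg) (hvs : 0 < v.s) (hws : 0 < w.s) :
    ((∃ p s, midVx v w = mkVx p s) ∧ (midVx v w).p.nonneg) ∧
    ∃ α β : ℝ, 0 < α ∧ 0 < β ∧ (midVx v w).c.a.toM = α • v.c.a.toM + β • w.c.a.toM := by
  obtain ⟨⟨p, s, rfl⟩, hvn⟩ := hv
  obtain ⟨⟨q, s', rfl⟩, hwn⟩ := hw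
  rw [mkVx_s] at hvs hws
  rw [mkVx_p] at hvn hwn
  have hg : 0 < Nat.gcd s s' := Nat.gcd_pos_of_pos_left _ hvs
  obtain ⟨g, hg'⟩ : ∃ g, Nat.gcd s s' = g + 1 := ⟨Nat.gcd s s' - 1, by omega⟩
  have e : midVx (mkVx p s) (mkVx q s') =
      mkVx (P6.comb (Int.ofNat (s' / (g + 1))) p (Int.ofNat (s / (g + 1))) q)
        (2 * (s * (s' / (g + 1)))) := by
    unfold midVx
    rw [mkVx_s, mkVx_s, mkVx_p, mkVx_p, hg']
  have h1 : 0 < s / (g + 1) := by
    rw [← hg']
    exact Nat.div_pos (Nat.le_of_dvd hvs (Nat.gcd_dvd_left _ _)) hg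
  have h2 : 0 < s' / (g + 1) := by
    rw [← hg']
    exact Nat.div_pos (Nat.le_of_dvd hws (Nat.gcd_dvd_right _ _)) hg
  rw [e, mkVx_p, mkVx_a, mkVx_a, mkVx_a, P6.comb_form]
  refine ⟨⟨⟨_, _, rfl⟩, P6.comb_nonneg _ _ _ _ (Int.natCast_nonneg _) (Int.natCast_nonneg _) hvn hwn⟩,
    _, _, ?_, ?_, rfl⟩
  · exact Int.cast_pos.mpr (Int.natCast_pos.mpr h2)
  · exact Int.cast_pos.mpr (Int.natCast_pos.mpr h1)

theorem splitT_sound (X : Model) (t : Task) (ht : t.holds X) (i j : ℕ) (l : List Task)
    (h : splitT t i j = some l) : ∃ u ∈ l, u.holds X := by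
  unfold splitT at h
  split at h
  · rename_i v w hij hv hw
    split at h
    · rename_i hvs hws
      have hij : i ≠ j := by simpa using hij
      have hvs : 0 < v.s := by simpa using hvs
      have hws : 0 < w.s := by simpa using hws
      injection h with h
      subst h
      obtain ⟨h1, ⟨lam, hlam, hF⟩, h3⟩ := ht
      have hvm := nth_mem _ _ _ hv
      have hwm := nth_mem _ _ _ hw
      obtain ⟨hm, α, β, hα, hβ, hme⟩ := mid_facts v w (h1 v hvm) (h1 w hwm) hvs hws
      have hil := nth_lt _ _ _ hv
      have hjl := nth_lt _ _ _ hw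
      rcases le_total (lam j * α) (lam i * β) with hc | hc
      · refine ⟨⟨setn (midVx v w) t.cs j, t.env⟩, by simp, ?_, ?_, h3⟩
        · intro x hx
          rcases mem_setn _ _ _ _ hx with rfl | hx
          · exact hm
          · exact h1 x hx
        · have e1 : ∀ k, k ≠ j → At (setn (midVx v w) t.cs j) k = At t.cs k := by
            intro k hk
            unfold At
            rw [nth_setn_ne _ _ _ _ hk]
          have e2 : At (setn (midVx v w) t.cs j) j = α • At t.cs i + β • At t.cs j := by
            rw [At_some _ _ _ (nth_setn_eq (midVx v w) _ _ _ hw), At_some _ _ _ hv, At_some _ _ _ hw, hme]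
          obtain ⟨mu, hmu, hs⟩ := replaceC hij hil hjl hα hβ e1 e2 hlam hc
          refine ⟨mu, hmu, ?_⟩
          simp only [length_setn]
          rw [hs]
          exact hF
      · refine ⟨⟨setn (midVx v w) t.cs i, t.env⟩, by simp, ?_, ?_, h3⟩
        · intro x hx
          rcases mem_setn _ _ _ _ hx with rfl | hx
          · exact hm
          · exact h1 x hx
        · have e1 : ∀ k, k ≠ i → At (setn (midVx v w) t.cs i) k = At t.cs k := by
            intro k hk
            unfold At
            rw [nth_setn_ne _ _ _ _ hk]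
          have e2 : At (setn (midVx v w) t.cs i) i = β • At t.cs j + α • At t.cs i := by
            rw [At_some _ _ _ (nth_setn_eq (midVx v w) _ _ _ hv), At_some _ _ _ hv, At_some _ _ _ hw, hme,
              add_comm]
          obtain ⟨mu, hmu, hs⟩ := replaceC hij.symm hjl hil hβ hα e1 e2 hlam hc
          refine ⟨mu, hmu, ?_⟩
          simp only [length_setn]
          rw [hs]
          exact hF
    · cases h
  · cases h

/-- the rule is correct for the model -/
def Valid (rule : Rule) (X : Model) : Prop :=
  ∀ env : List Item, (∀ i ∈ env, i.holds X) → ∀ (id : ℕ) (a : List (List Item)), rule env id = some a →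
    ∃ l ∈ a, ∀ i ∈ l, i.holds X

theorem mem_kids (cs : List Vx) (env : List Item) (a : List (List Item)) (l : List Item) (h : l ∈ a) :
    (⟨cs, l ++ env⟩ : Task) ∈ kids cs env a := by
  induction a with
  | nil => cases h
  | cons b a ih =>
    rcases List.mem_cons.mp h with rfl | h
    · exact List.mem_cons_self
    · exact List.mem_cons_of_mem _ (ih h)

theorem leafN_false (X : Model) (t : Task) (ht : t.holds X) (r : ℕ) (h : leafN t r = true) : False := by
  obtain ⟨h1, ⟨lam, hlam, hF⟩, h3⟩ := ht
  unfold leafN at h
  refine comb_false X t.cs h1 lam hlam hF _ _ t.env h3 _ _ _ _ _ ?_ ?_ h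
  · have : (M3.toM ⟨0, 0, 0, 0, 0, 0, 0, 0, 0⟩ : Matrix (Fin 3) (Fin 3) ℝ) = 0 := by
      unfold M3.toM
      ext i j
      fin_cases i <;> fin_cases j <;> simp
    rw [this, Matrix.mul_zero, trace_zero]
    simp
  · have : (M3.toM ⟨0, 0, 0, 0, 0, 0, 0, 0, 0⟩ : Matrix (Fin 3) (Fin 3) ℝ) = 0 := by
      unfold M3.toM
      ext i j
      fin_cases i <;> fin_cases j <;> simp
    rw [this, Matrix.mul_zero, trace_zero]
    simp

theorem step_sound (rule : Rule) (X : Model) (hr : Valid rule X) (known : List Task)
    (hk : ∀ u ∈ known, ¬ u.holds X) (t : Task) (ht : t.holds X) (tok : ℕ) (l : List Task)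
    (h : step rule known t tok = some l) : ∃ u ∈ l, u.holds X := by
  unfold step at h
  split at h
  · split at h
    · rename_i h0
      exact (leafN_false X t ht _ h0).elim
    · cases h
  · exact splitT_sound X t ht _ _ l h
  · split at h
    · cases h
    · rename_i a ha
      injection h with h
      subst h
      obtain ⟨h1, h2, h3⟩ := ht
      obtain ⟨b, hb, hb'⟩ := hr _ h3 _ _ ha
      refine ⟨⟨t.cs, b ++ t.env⟩, mem_kids _ _ _ _ hb, h1, h2, ?_⟩
      intro i hi
      rcases List.mem_append.mp hi with hi | hi
      · exact hb' i hi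
      · exact h3 i hi
  · split at h
    · cases h
    · rename_i u hu
      split at h
      · rename_i he
        have he : u = t := by simpa using he
        exact (hk u (nth_mem _ _ _ hu) (he ▸ ht)).elim
      · cases h

/-- soundness of the machine -/
theorem run_sound (rule : Rule) (X : Model) (hr : Valid rule X) (known : List Task)
    (hk : ∀ u ∈ known, ¬ u.holds X) : ∀ (toks : List ℕ) (st : List Task),
    run rule known toks st = true → ∀ t ∈ st, ¬ t.holds X := by
  intro toks
  induction toks with
  | nil =>
    intro st h t ht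
    cases st with
    | nil => cases ht
    | cons a l => cases h
  | cons tok l ih =>
    intro st h t ht hX
    cases st with
    | nil => cases ht
    | cons a st =>
      unfold run at h
      split at h
      · cases h
      · rename_i n hn
        have := ih _ h
        rcases List.mem_cons.mp ht with rfl | ht
        · obtain ⟨u, hu, hu'⟩ := step_sound rule X hr known hk _ hX tok n hn
          exact this u (List.mem_append_left _ hu) hu'
        · exact this t (List.mem_append_right _ ht) hX

/-- the tasks at the ends of the paths -/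
def ends (rule : Rule) (t : Task) : List (List (ℕ × ℕ)) → List Task
  | [] => []
  | p :: l => match follow rule p t with
    | none => ends rule t l
    | some u => u :: ends rule t l

theorem mem_ends (rule : Rule) (t : Task) (ps : List (List (ℕ × ℕ))) (u : Task) (h : u ∈ ends rule t ps) :
    ∃ p ∈ ps, follow rule p t = some u := by
  induction ps with
  | nil => cases h
  | cons p l ih =>
    unfold ends at h
    split at h
    · obtain ⟨q, hq, hq'⟩ := ih h
      exact ⟨q, List.mem_cons_of_mem _ hq, hq'⟩
    · rename_i v hv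
      rcases List.mem_cons.mp h with rfl | h
      · exact ⟨p, List.mem_cons_self, hv⟩
      · obtain ⟨q, hq, hq'⟩ := ih h
        exact ⟨q, List.mem_cons_of_mem _ hq, hq'⟩

/-- the whole tree: the parts are checked, and the top refers to them -/
theorem tree_sound (rule : Rule) (X : Model) (hr : Valid rule X) (t : Task)
    (ps : List (List (ℕ × ℕ))) (hp : ∀ p ∈ ps, ∃ toks, runAt rule p toks t = true) (top : List ℕ)
    (h : run rule (ends rule t ps) top [t] = true) : ¬ t.holds X := by
  refine run_sound rule X hr _ ?_ top [t] h t (by simp)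
  intro u hu
  obtain ⟨p, hp', hu'⟩ := mem_ends _ _ _ _ hu
  obtain ⟨toks, ht⟩ := hp p hp'
  unfold runAt at ht
  rw [hu'] at ht
  exact run_sound rule X hr [] (by simp) toks [u] ht u (by simp)

end Pool.Agent.Helper28.TT
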